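import Pool.Agent.H73.MR.Dl

/-!
# Field automorphisms and the polynomials with the roots `Δ((a w + b) / d) / Δ(w)`
-/

set_option autoImplicit false

open UpperHalfPlane ModularForm EisensteinSeries
open H294ZP H294ZP.TF676 H294ZP.TA2
open Pool.Agent.NH23.CM (sc sc_coe qq_hk zt PS map_PS R_PS R_C R_Xpow R_congr R_sum)
open Pool.Agent.Y226.ZW (R_add R_uniq)
open Pool.Agent.H73.ML

noncomputable section

namespace Pool.Agent.H73.MR

variable {N : ℕ}

/-- the function for `(a w + b) / d` -/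
def dlb {a d : ℕ} (b : ℤ) (ha : 0 < a) (hd : 0 < d) (w : ℍ) : ℂ :=
  (a : ℂ) ^ 12 * discriminant (hk a d b ha hd w) * (1 / discriminant w)

/-- its series -/
def DS (N a : ℕ) (ζ : ℂ) : PowerSeries ℂ :=
  PowerSeries.C ((a : ℂ) ^ 12) * IS cD ζ (a ^ 2) * IS cV 1 N

theorem map_DS (σ : ℂ →+* ℂ) (N a : ℕ) (ζ : ℂ) : PowerSeries.map σ (DS N a ζ) = DS N a (σ ζ) := by
  rw [DS, DS, map_mul, map_mul, map_IS, map_IS, map_one, PowerSeries.map_C, map_pow, map_natCast]

theorem R_DS (hN : 0 < N) {a d : ℕ} (ha : 0 < a) (hd : 0 < d) (h : a * d = N) (b : ℤ) :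
    R (DS N a (zt d b)) (fun u => qq 1 u ^ N * dlb b ha hd (sc N hN u)) := by
  have e1 : ∀ u, qq 1 (sc N hN u) = 1 * qq 1 u ^ N := by
    intro u
    unfold qq
    rw [sc_coe, ← Complex.exp_nat_mul, one_mul]
    congr 1
    push_cast
    ring
  have r1 := R_IS cD_sum (pow_pos ha 2) (qq_hk hN ha hd h b)
  have r3 := R_IS cV_sum hN e1
  have r4 := R_mul (R_mul (R_C ((a : ℂ) ^ 12)) r1) r3
  refine R_congr r4 fun u => ?_
  rw [e1, dlb]
  ring

variable {ι : Type} [Fintype ι] {a d : ι → ℕ} {b : ι → ℤ}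

/-- the coefficients of the polynomial with the roots `δ_k` -/
def cf (a d : ι → ℕ) (ha : ∀ k, 0 < a k) (hd : ∀ k, 0 < d k) (b : ι → ℤ) (r : ℕ) (w : ℍ) : ℂ :=
  (∏ k, (Polynomial.X - Polynomial.C (dlb (b k) (ha k) (hd k) w))).coeff r

/-- the series -/
def CS (N : ℕ) (a d : ι → ℕ) (b : ι → ℤ) (r : ℕ) : PowerSeries ℂ :=
  (∏ k, (Polynomial.C (PowerSeries.X ^ N) * Polynomial.X - Polynomial.C (DS N (a k) (zt (d k) (b k))))).coeff r

theorem R_CS (hN : 0 < N) (ha : ∀ k, 0 < a k) (hd : ∀ k, 0 < d k) (h : ∀ k, a k * d k = N) (r : ℕ) :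
    R (CS N a d b r) (fun u => qq 1 u ^ (N * Fintype.card ι) * cf a d ha hd b r (sc N hN u)) := by
  have h1 := RP_prod Finset.univ (fun k _ => RP_lin (R_Xpow N) (R_DS hN (ha k) (hd k) (h k) (b k))) r
  refine R_congr h1 fun u => ?_
  have h2 : ∏ k, (Polynomial.C (qq 1 u ^ N) * Polynomial.X -
      Polynomial.C (qq 1 u ^ N * dlb (b k) (ha k) (hd k) (sc N hN u))) =
      Polynomial.C (qq 1 u ^ (N * Fintype.card ι)) *
        ∏ k, (Polynomial.X - Polynomial.C (dlb (b k) (ha k) (hd k) (sc N hN u))) := by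
    have h3 : ∀ k, (Polynomial.C (qq 1 u ^ N) * Polynomial.X -
      Polynomial.C (qq 1 u ^ N * dlb (b k) (ha k) (hd k) (sc N hN u))) = Polynomial.C (qq 1 u ^ N) *
        (Polynomial.X - Polynomial.C (dlb (b k) (ha k) (hd k) (sc N hN u))) := by
      intro k
      rw [map_mul]
      ring
    rw [Finset.prod_congr rfl fun k _ => h3 k, Finset.prod_mul_distrib, Finset.prod_const, Finset.card_univ,
      ← map_pow, ← pow_mul]
  beta_reduce
  rw [h2, Polynomial.coeff_C_mul]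
  rfl

theorem map_CS {σ : ℂ →+* ℂ} {s : ℤ} (hσ : ∀ k, σ (zt (d k) (b k)) = zt (d k) (s * b k)) (r : ℕ) :
    PowerSeries.map σ (CS N a d b r) = CS N a d (fun k => s * b k) r := by
  rw [CS, CS, ← Polynomial.coeff_map, Polynomial.map_prod]
  congr 1
  refine Finset.prod_congr rfl fun k _ => ?_
  rw [Polynomial.map_sub, Polynomial.map_mul, Polynomial.map_C, Polynomial.map_C, Polynomial.map_X, map_DS, hσ,
    map_pow, PowerSeries.map_X]

/-- **conjugation** -/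
theorem conj_cf (hN : 0 < N) (ha : ∀ k, 0 < a k) (hd : ∀ k, 0 < d k) (h : ∀ k, a k * d k = N)
    {P : Polynomial ℂ} {r : ℕ} (hP : ∀ w : ℍ, cf a d ha hd b r w = P.eval (jj w))
    {σ : ℂ →+* ℂ} {s : ℤ} (hσ : ∀ k, σ (zt (d k) (b k)) = zt (d k) (s * b k)) (w : ℍ) :
    cf a d ha hd (fun k => s * b k) r w = (P.map σ).eval (jj w) := by
  classical
  set D := P.natDegree with hD
  have key : ∀ (b' : ι → ℤ) (Q : Polynomial ℂ) (hQ : Q.natDegree ≤ D),
      (PowerSeries.X ^ (N * D) * CS N a d b' r =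
        PowerSeries.X ^ (N * Fintype.card ι) * PS N D Q ↔
      ∀ u : ℍ, cf a d ha hd b' r (sc N hN u) = Q.eval (jj (sc N hN u))) := by
    intro b' Q hQ
    have r1 := R_mul (R_Xpow (N * D)) (R_CS (b := b') hN ha hd h r)
    have r2 := R_mul (R_Xpow (N * Fintype.card ι)) (R_PS hN hQ)
    constructor
    · intro he u
      have h1 := r1 u
      rw [he] at h1
      have h2 := h1.unique (r2 u)
      beta_reduce at h2
      have n1 : qq 1 u ^ (N * D) * qq 1 u ^ (N * Fintype.card ι) ≠ 0 :=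
        mul_ne_zero (pow_ne_zero _ (qq_ne u)) (pow_ne_zero _ (qq_ne u))
      apply mul_left_cancel₀ n1
      linear_combination h2
    · intro he
      refine R_uniq r1 (R_congr r2 fun u => ?_)
      rw [← he u]
      ring
  have h1 := (key b P le_rfl).2 fun u => hP _
  have h2 := congrArg (PowerSeries.map σ) h1
  rw [map_mul, map_mul, map_pow, map_pow, PowerSeries.map_X, map_PS, map_CS hσ] at h2
  have h3 := (key (fun k => s * b k) (P.map σ) (Polynomial.natDegree_map_le.trans le_rfl)).1 h2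
    (hk 1 N 0 one_pos hN w)
  have h4 : sc N hN (hk 1 N 0 one_pos hN w) = w := by
    apply UpperHalfPlane.ext
    rw [sc_coe, mul_comm, hk_mul]
    simp
  rw [h4] at h3
  exact h3

/-! ### Bounds -/

open Pool.Agent.NH23.CM (norm_qq iy iy_im)

theorem summ_cV {r : ℝ} (h0 : 0 ≤ r) (h1 : r < 1) : Summable fun n : ℕ => ‖(cV n : ℂ)‖ * r ^ n := by
  set s : ℝ := (1 + r) / 2 with hs
  have s0 : 0 < s := by rw [hs]; linarith
  have s1 : s < 1 := by rw [hs]; linarith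
  have hrs : r ≤ s := by rw [hs]; linarith
  have hy : 0 < -Real.log s / (2 * Real.pi) := div_pos (neg_pos.2 (Real.log_neg s0 s1)) (by positivity)
  have h2 := (cV_sum (iy _ hy)).summable.norm
  have h3 : ‖qq 1 (iy _ hy)‖ = s := by
    rw [norm_qq, iy_im]
    have hpi : (Real.pi : ℝ) ≠ 0 := Real.pi_ne_zero
    rw [show -(2 * Real.pi * (-Real.log s / (2 * Real.pi))) = Real.log s by field_simp, Real.exp_log s0]
  refine Summable.of_nonneg_of_le (fun n => by positivity) (fun n => ?_) h2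
  rw [norm_mul, norm_pow, h3]
  gcongr

theorem iD_bound {y₁ : ℝ} (hy : 0 < y₁) (y₂ : ℝ) : ∃ C : ℝ, 1 ≤ C ∧ ∀ w : ℍ, y₁ ≤ w.im → w.im ≤ y₂ →
    ‖1 / discriminant w‖ ≤ C := by
  set r : ℝ := Real.exp (-(2 * Real.pi * y₁)) with hr
  have hpi := Real.pi_pos
  have r1 : r < 1 := by
    rw [hr, Real.exp_lt_one_iff]
    have : 0 < 2 * Real.pi * y₁ := by positivity
    linarith
  have hS := summ_cV (Real.exp_pos _).le r1
  refine ⟨max 1 (Real.exp (2 * Real.pi * y₂) * ∑' n, ‖(cV n : ℂ)‖ * r ^ n), le_max_left _ _, fun u hu hu2 => ?_⟩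
  have h1 : ‖qq 1 u‖ ≤ r := by
    rw [norm_qq, hr]
    apply Real.exp_le_exp.2
    nlinarith
  have h2 : ‖qq 1 u * (1 / discriminant u)‖ ≤ ∑' n, ‖(cV n : ℂ)‖ * r ^ n := by
    rw [← (cV_sum u).tsum_eq]
    refine tsum_of_norm_bounded hS.hasSum fun n => ?_
    rw [norm_mul, norm_pow]
    gcongr
  rw [norm_mul, norm_qq, Real.exp_neg] at h2
  have h3 := Real.exp_pos (2 * Real.pi * u.im)
  rw [inv_mul_le_iff₀ h3] at h2
  refine h2.trans ((mul_le_mul_of_nonneg_right ?_ (tsum_nonneg fun n => by positivity)).trans (le_max_right _ _))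
  apply Real.exp_le_exp.2
  gcongr

theorem disc_bound : ∃ C : ℝ, 1 ≤ C ∧ ∀ w : ℍ, ‖discriminant w‖ ≤ C / w.im ^ 6 := by
  obtain ⟨C, hC⟩ := CuspFormClass.exists_bound CuspForm.discriminant
  refine ⟨max 1 C, le_max_left _ _, fun w => ?_⟩
  have h1 := hC w
  have h2 : (w.im : ℝ) ^ (((12 : ℤ) : ℝ) / 2) = w.im ^ 6 := by
    rw [← Real.rpow_natCast]
    norm_num
  rw [h2] at h1
  have h3 : 0 < w.im ^ 6 := pow_pos w.im_pos 6
  refine le_trans h1 ?_
  gcongr
  exact le_max_right _ _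

/-- the bound -/
theorem dlb_bound {y₁ : ℝ} (hy : 0 < y₁) (y₂ : ℝ) : ∃ C : ℝ, 1 ≤ C ∧ ∀ (N : ℕ), 0 < N → ∀ (a d : ℕ) (b : ℤ) (ha : 0 < a)
    (hd : 0 < d), a * d = N → ∀ w : ℍ, y₁ ≤ w.im → w.im ≤ y₂ → ‖dlb b ha hd w‖ ≤ C * (N : ℝ) ^ 18 := by
  obtain ⟨C₁, hC₁, h1⟩ := disc_bound
  obtain ⟨C₂, hC₂, h2⟩ := iD_bound hy y₂
  refine ⟨C₁ * max 1 (1 / y₁ ^ 6) * C₂, ?_, fun N hN a d b ha hd had w hw1 hw2 => ?_⟩
  · have h3 : 1 ≤ max 1 (1 / y₁ ^ 6) := le_max_left _ _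
    exact one_le_mul_of_one_le_of_one_le (one_le_mul_of_one_le_of_one_le hC₁ h3) hC₂
  have hN1 : (1 : ℝ) ≤ N := by exact_mod_cast hN
  have hN0 : (0 : ℝ) < N := by linarith
  have ha' : (1 : ℝ) ≤ a := by exact_mod_cast ha
  have hd' : (1 : ℝ) ≤ d := by exact_mod_cast hd
  have hadr : (a : ℝ) * d = N := by exact_mod_cast had
  have haN : (a : ℝ) ≤ N := by rw [← hadr]; nlinarith
  have him : (hk a d b ha hd w).im = a * w.im / d := by
    have h1 := hk_mul a d b ha hd w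
    have h2 := congrArg Complex.im h1
    rw [mul_comm, ← Complex.ofReal_natCast, Complex.im_ofReal_mul, Complex.add_im, ← Complex.ofReal_natCast,
      Complex.im_ofReal_mul, Complex.intCast_im, add_zero] at h2
    rw [eq_div_iff (by positivity), mul_comm]
    exact h2
  have g1 : y₁ / N ≤ (hk a d b ha hd w).im := by
    rw [him, ← hadr, div_le_div_iff₀ (by positivity) (by positivity)]
    calc y₁ * d ≤ w.im * d := by gcongr
      _ = 1 * w.im * (1 * d) := by ring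
      _ ≤ a * w.im * (a * d) := by
        have := w.im_pos
        gcongr
  have e1 := h1 (hk a d b ha hd w)
  have e3 := h2 w hw1 hw2
  have e2 : ‖discriminant (hk a d b ha hd w)‖ ≤ C₁ * max 1 (1 / y₁ ^ 6) * (N : ℝ) ^ 6 := by
    refine e1.trans ?_
    have g0 : 0 < y₁ / N := by positivity
    calc C₁ / (hk a d b ha hd w).im ^ 6 ≤ C₁ / (y₁ / N) ^ 6 := by gcongr
      _ = C₁ * (1 / y₁ ^ 6) * (N : ℝ) ^ 6 := by field_simp
      _ ≤ _ := by
        gcongr
        exact le_max_right _ _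
  rw [dlb, norm_mul, norm_mul, norm_pow, Complex.norm_natCast]
  calc (a : ℝ) ^ 12 * ‖discriminant (hk a d b ha hd w)‖ * ‖1 / discriminant w‖ ≤
      (N : ℝ) ^ 12 * (C₁ * max 1 (1 / y₁ ^ 6) * (N : ℝ) ^ 6) * C₂ := by gcongr
    _ = _ := by ring

end Pool.Agent.H73.MR
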