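import Pool.Agent.H73.MR.Cj

/-!
# The numbers `Δ(τ₂) / Δ(τ₁)` at CM points of one field
-/

set_option autoImplicit false

open UpperHalfPlane ModularForm EisensteinSeries Polynomial
open H294ZP H294ZP.TF676 H294ZP.TA2 FixedDetMatrices
open Pool.Agent.R870.NY (LB coeff_prod hTB card_reps)
open Pool.Agent.NH23.CM (jj_surj poly_unique exists_conj_aut exists_s zt cm_main deg_le)
open Pool.Agent.H73.ML (int_eval int_root conj_root prod_coeff_le eval_le root_bd)

noncomputable section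

namespace Pool.Agent.H73.MR

theorem dl_data {N : ℕ} (hN : 0 < N) : ∃ (ι : Type) (_ : Fintype ι) (a d : ι → ℕ) (b : ι → ℤ)
    (ha : ∀ k, 0 < a k) (hd : ∀ k, 0 < d k) (_ : ∀ k, a k * d k = N) (P : ℕ → ℂ[X]),
    Fintype.card ι ≤ N ^ 2 ∧ (∀ r, (P r).natDegree ≤ N ^ 2) ∧ (∀ r n, IsIntegral ℤ ((P r).coeff n)) ∧
    (∀ r w, cf a d ha hd b r w = (P r).eval (jj w)) ∧
    (∀ (a' d' : ℕ) (b' : ℤ), a' * d' = N → ∀ τ w : ℍ, (w : ℂ) * d' = a' * τ + b' →
      ∃ k, dlb (b k) (ha k) (hd k) τ = (a' : ℂ) ^ 12 * (discriminant w / discriminant τ)) := by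
  classical
  have hth : ∀ (k : reps (N : ℤ)) w, dlb (k.1.1 0 1) (reps_pos hN k).1 (reps_pos hN k).2.1 w = dl hN k w := by
    intro k w
    have e1 : (((k.1.1 0 0).toNat : ℕ) : ℂ) = ((k.1.1 0 0 : ℤ) : ℂ) := by
      rw [← Int.cast_natCast, (reps_pos hN k).2.2.2.1]
    rw [dlb, dl, e1, mul_one_div]
    rfl
  have hcard : Fintype.card (reps (N : ℤ)) ≤ N ^ 2 := by
    rw [← Nat.card_eq_fintype_card]
    exact card_reps hN
  have hco := coeff_prod hN (fun k => dl hN k) (lb_dl hN) Finset.univ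
  have hP : ∀ r, ∃ P : ℂ[X], P.natDegree ≤ N ^ 2 ∧ (∀ n, IsIntegral ℤ (P.coeff n)) ∧
      ∀ τ, (∏ k, (X - C (dl hN k τ))).coeff r = P.eval (jj τ) := by
    intro r
    obtain ⟨⟨A, hL⟩, hH⟩ := hco r
    obtain ⟨P, hP1, hP2, -, hP3, -⟩ := hTB N hN _ A _ (by
      intro p q r' t hpt τ w hw
      obtain ⟨γ, rfl, -⟩ := exists_smul_eq hpt hw
      obtain ⟨σ, hσ⟩ := dl_perm hN γ
      change (∏ k, (X - C (dl hN k (γ • τ)))).coeff r = (∏ k, (X - C (dl hN k τ))).coeff r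
      rw [← Equiv.prod_comp σ (fun k => (X - C (dl hN k τ)))]
      simp only [hσ]) hH hL
    refine ⟨P, hP3.trans ?_, hP1, hP2⟩
    rw [Finset.card_univ, Nat.mul_div_cancel _ hN]
    exact hcard
  choose P hPd hPi hP using hP
  refine ⟨reps (N : ℤ), inferInstance, fun k => (k.1.1 0 0).toNat, fun k => (k.1.1 1 1).toNat, fun k => k.1.1 0 1,
    fun k => (reps_pos hN k).1, fun k => (reps_pos hN k).2.1, fun k => (reps_pos hN k).2.2.1, P, hcard, hPd, hPi, ?_, ?_⟩
  · intro r w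
    rw [cf, ← hP]
    simp only [hth]
  · intro a' d' b' had τ w hw
    obtain ⟨k, hk⟩ := dl_tri hN had b' τ w hw
    refine ⟨k, ?_⟩
    rw [← hk, ← hth]

theorem conj_dl : ∃ C : ℝ, 1 ≤ C ∧ ∀ (N : ℕ), 0 < N → ∀ (a' d' : ℕ) (b' : ℤ), a' * d' = N → ∀ τ w : ℍ,
    (w : ℂ) * d' = a' * τ + b' → IsIntegral ℤ (jj τ) → ∀ (D : ℕ) (G : ℝ), 1 ≤ G →
    (minpoly ℚ (jj τ)).natDegree ≤ D → (∀ x : ℂ, aeval x (minpoly ℚ (jj τ)) = 0 → ‖x‖ ≤ G) →
      IsIntegral ℤ ((a' : ℂ) ^ 12 * (discriminant w / discriminant τ)) ∧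
      (minpoly ℚ ((a' : ℂ) ^ 12 * (discriminant w / discriminant τ))).natDegree ≤ N ^ 3 * D ∧
      ∀ σ : ℂ ≃+* ℂ, ‖σ ((a' : ℂ) ^ 12 * (discriminant w / discriminant τ))‖ ≤
        1 + N ^ 2 * ((N ^ 2 + 1) * (1 + C * N ^ 18) ^ (N ^ 2) * G ^ (N ^ 2)) := by
  classical
  obtain ⟨R, y₁, y₂, hR, hy1, hsurj⟩ := jj_surj
  obtain ⟨C, hC, hb⟩ := dlb_bound hy1 y₂
  refine ⟨C, hC, ?_⟩
  intro N hN a' d' b' had' τ w hw hint D G hG hD hGx
  obtain ⟨ι, _, a, d, b, ha, hd, had, P, hcard, hPd, hPi, hP, hfix⟩ := dl_data hN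
  obtain ⟨k₀, hk₀⟩ := hfix a' d' b' had' τ w hw
  rw [← hk₀]
  set θ := dlb (b k₀) (ha k₀) (hd k₀) τ with hθ
  set F : ℂ[X] := ∏ k, (X - Polynomial.C (dlb (b k) (ha k) (hd k) τ)) with hF
  have hFm : F.Monic := monic_prod_of_monic _ _ fun k _ => monic_X_sub_C _
  have hFd : F.natDegree = Fintype.card ι := by
    rw [hF, natDegree_prod_of_monic _ _ fun k _ => monic_X_sub_C _]
    simp
  have hFc : ∀ n, F.coeff n = (P n).eval (jj τ) := fun n => hP n τ
  have hF0 : F.eval θ = 0 := by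
    rw [hF, eval_prod]
    refine Finset.prod_eq_zero (Finset.mem_univ k₀) ?_
    rw [eval_sub, eval_X, eval_C, sub_self]
  have hθi : IsIntegral ℤ θ := int_root hFm (fun n => by rw [hFc]; exact int_eval (hPi n) hint) hF0
  have hN1 : (1 : ℝ) ≤ N := by exact_mod_cast hN
  -- the conjugated polynomial
  have hmap : ∀ σ : ℂ ≃+* ℂ, (F.map (σ : ℂ →+* ℂ)).Monic ∧ (F.map (σ : ℂ →+* ℂ)).natDegree = Fintype.card ι ∧
      (F.map (σ : ℂ →+* ℂ)).eval (σ θ) = 0 ∧
      ∀ n, (F.map (σ : ℂ →+* ℂ)).coeff n = ((P n).map (σ : ℂ →+* ℂ)).eval (σ (jj τ)) := by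
    intro σ
    refine ⟨hFm.map _, by rw [hFm.natDegree_map, hFd], ?_, ?_⟩
    · have := Polynomial.eval_map_apply (σ : ℂ →+* ℂ) (p := F) (x := θ)
      rw [hF0, map_zero] at this
      exact this
    · intro n
      rw [Polynomial.coeff_map, hFc]
      exact (Polynomial.eval_map_apply (σ : ℂ →+* ℂ) (p := P n) (x := jj τ)).symm
  have hcj : ∀ σ : ℂ ≃+* ℂ, ∃ s' : ℕ, s' < N ∧ ∀ n w, cf a d ha hd (fun k => (s' : ℤ) * b k) n w =
      ((P n).map (σ : ℂ →+* ℂ)).eval (jj w) := by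
    intro σ
    obtain ⟨s', hs', hs2⟩ := exists_s hN (σ : ℂ →+* ℂ)
    exact ⟨s', hs', fun n w => conj_cf hN ha hd had (hP n) (fun k => hs2 (a k) (d k) (b k) (hd k) (had k)) w⟩
  refine ⟨hθi, ?_, ?_⟩
  · set T : ℕ → ℂ → Finset ℂ := fun s' x => if h : ∃ Q : ℕ → ℂ[X],
      ∀ n w, cf a d ha hd (fun k => (s' : ℤ) * b k) n w = (Q n).eval (jj w) then
        (∑ n ∈ Finset.range (Fintype.card ι + 1), Polynomial.C ((h.choose n).eval x) * X ^ n).roots.toFinset
        else ∅ with hT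
    have hTc : ∀ s' x, (T s' x).card ≤ N ^ 2 := by
      intro s' x
      simp only [hT]
      split_ifs with h
      · refine (Multiset.toFinset_card_le _).trans ((Polynomial.card_roots' _).trans ?_)
        refine le_trans ?_ hcard
        refine natDegree_sum_le_of_forall_le _ _ fun n hn => ?_
        exact (natDegree_C_mul_X_pow_le _ _).trans (Nat.lt_succ_iff.1 (Finset.mem_range.1 hn))
      · simp
    have halg : IsAlgebraic ℚ θ := (hθi.tower_top (A := ℚ)).isAlgebraic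
    have hjalg : IsAlgebraic ℚ (jj τ) := (hint.tower_top (A := ℚ)).isAlgebraic
    set S : Finset ℂ := ((minpoly ℚ (jj τ)).rootSet ℂ).toFinset with hS
    have hSc : S.card ≤ D := by
      have h2 : Fintype.card ((minpoly ℚ (jj τ)).rootSet ℂ) = (minpoly ℚ (jj τ)).natDegree :=
        Polynomial.card_rootSet_eq_natDegree (minpoly.irreducible hjalg.isIntegral).separable (IsAlgClosed.splits _)
      rw [hS, Set.toFinset_card, h2]
      exact hD
    have hsub : ((minpoly ℚ θ).rootSet ℂ) ⊆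
        ((Finset.range N).biUnion fun s' => S.biUnion fun x => T s' x : Finset ℂ) := by
      intro x hx
      rw [Polynomial.mem_rootSet] at hx
      obtain ⟨σ, hσ⟩ := exists_conj_aut halg hx.2
      obtain ⟨s', hs', hcf⟩ := hcj σ
      obtain ⟨m1, m2, m3, m4⟩ := hmap σ
      rw [Finset.mem_coe, Finset.mem_biUnion]
      refine ⟨s', Finset.mem_range.2 hs', ?_⟩
      rw [Finset.mem_biUnion]
      refine ⟨σ (jj τ), ?_, ?_⟩
      · rw [hS, Set.mem_toFinset, Polynomial.mem_rootSet]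
        exact ⟨minpoly.ne_zero hjalg.isIntegral, conj_root σ⟩
      · have hex : ∃ Q : ℕ → ℂ[X], ∀ n w, cf a d ha hd (fun k => (s' : ℤ) * b k) n w = (Q n).eval (jj w) :=
          ⟨_, hcf⟩
        simp only [hT]
        rw [dif_pos hex]
        have heq : ∀ n, hex.choose n = (P n).map (σ : ℂ →+* ℂ) := fun n => poly_unique fun w => by
          rw [← hex.choose_spec n w, hcf n w]
        have hsum : (∑ n ∈ Finset.range (Fintype.card ι + 1), Polynomial.C ((hex.choose n).eval (σ (jj τ))) * X ^ n) =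
            F.map (σ : ℂ →+* ℂ) := by
          rw [(F.map (σ : ℂ →+* ℂ)).as_sum_range_C_mul_X_pow, m2]
          refine Finset.sum_congr rfl fun n _ => ?_
          rw [heq, m4]
        rw [hsum, Multiset.mem_toFinset, Polynomial.mem_roots m1.ne_zero, ← hσ]
        exact m3
    have h1 : Fintype.card ((minpoly ℚ θ).rootSet ℂ) = (minpoly ℚ θ).natDegree :=
      Polynomial.card_rootSet_eq_natDegree (minpoly.irreducible halg.isIntegral).separable
        (IsAlgClosed.splits _)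
    rw [← h1, ← Nat.card_eq_fintype_card]
    calc Nat.card ((minpoly ℚ θ).rootSet ℂ) ≤
          Nat.card (((Finset.range N).biUnion fun s' => S.biUnion fun x => T s' x : Finset ℂ) : Set ℂ) :=
          Nat.card_mono (Finset.finite_toSet _) hsub
      _ = ((Finset.range N).biUnion fun s' => S.biUnion fun x => T s' x).card := by
          rw [Nat.card_coe_set_eq, Set.ncard_coe_finset]
      _ ≤ (Finset.range N).card * (D * N ^ 2) := by
          refine Finset.card_biUnion_le_card_mul _ _ _ fun s' _ => ?_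
          refine (Finset.card_biUnion_le_card_mul _ _ _ fun x _ => hTc s' x).trans ?_
          exact Nat.mul_le_mul_right _ hSc
      _ = N ^ 3 * D := by rw [Finset.card_range]; ring
  · intro σ
    obtain ⟨s', hs', hcf⟩ := hcj σ
    obtain ⟨m1, m2, m3, m4⟩ := hmap σ
    set M₁ : ℝ := (1 + C * N ^ 18) ^ (N ^ 2) with hM₁
    have hbase : (1 : ℝ) ≤ 1 + C * N ^ 18 := by
      have : (0 : ℝ) ≤ C * N ^ 18 := by positivity
      linarith
    have hsup : ∀ n, ∀ x : ℂ, ‖x‖ = R → ‖((P n).map (σ : ℂ →+* ℂ)).eval x‖ ≤ M₁ := by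
      intro n x hx
      obtain ⟨w, hw1, hw2, hw3⟩ := hsurj x hx
      rw [← hw3, ← hcf n w, cf]
      refine (prod_coeff_le _ _ _).trans ?_
      calc ∏ k, (1 + ‖dlb ((s' : ℤ) * b k) (ha k) (hd k) w‖) ≤ ∏ _k : ι, (1 + C * (N : ℝ) ^ 18) :=
            Finset.prod_le_prod (fun k _ => by positivity) fun k _ => by
              have := hb N hN (a k) (d k) ((s' : ℤ) * b k) (ha k) (hd k) (had k) w hw1 hw2
              linarith
        _ = (1 + C * (N : ℝ) ^ 18) ^ Fintype.card ι := by rw [Finset.prod_const, Finset.card_univ]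
        _ ≤ M₁ := pow_le_pow_right₀ hbase hcard
    have hco : ∀ n, n < (F.map (σ : ℂ →+* ℂ)).natDegree → ‖(F.map (σ : ℂ →+* ℂ)).coeff n‖ ≤
        ((N : ℝ) ^ 2 + 1) * M₁ * G ^ (N ^ 2) := by
      intro n _
      rw [m4]
      have := eval_le hR (hsup n) (D := N ^ 2) (Polynomial.natDegree_map_le.trans (hPd n)) hG
        (hGx _ (conj_root σ))
      push_cast at this
      exact this
    have h2 := root_bd m1 (by positivity) hco m3
    rw [m2] at h2
    refine h2.trans ?_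
    have h3 : (Fintype.card ι : ℝ) ≤ (N : ℝ) ^ 2 := by exact_mod_cast hcard
    have h4 : 0 ≤ ((N : ℝ) ^ 2 + 1) * M₁ * G ^ (N ^ 2) := by positivity
    gcongr

end Pool.Agent.H73.MR
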