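import Pool.Agent.H73.MR.Cm
import Pool.Agent.H73.ML.CoW

/-!
# Bounds for `Δ(τ₂) / Δ(τ₁)` at CM points of one field
-/

set_option autoImplicit false

open UpperHalfPlane ModularForm EisensteinSeries Polynomial
open H294ZP H294ZP.TF676 H294ZP.TA2 FixedDetMatrices
open Pool.Agent.NH23.CM (exists_conj_aut cm_main)
open Pool.Agent.H73.ML

noncomputable section

namespace Pool.Agent.H73.MR

/-- two CM points of one field -/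
theorem same_field {τ₁ τ₂ : ℍ} {a₁ b₁ c₁ a₂ b₂ c₂ m : ℤ} (h1 : 0 < a₁) (h2 : 0 < a₂) (hm : 0 < m)
    (e1 : (a₁ : ℂ) * (τ₁ : ℂ) ^ 2 + b₁ * τ₁ + c₁ = 0) (e2 : (a₂ : ℂ) * (τ₂ : ℂ) ^ 2 + b₂ * τ₂ + c₂ = 0)
    (hD : 0 < 4 * a₁ * c₁ - b₁ ^ 2) (hmm : (4 * a₁ * c₁ - b₁ ^ 2) * (4 * a₂ * c₂ - b₂ ^ 2) = m ^ 2) :
    (τ₂ : ℂ) * (2 * a₂ * (4 * a₁ * c₁ - b₁ ^ 2) : ℤ) = (2 * a₁ * m : ℤ) * τ₁ + (b₁ * m - b₂ * (4 * a₁ * c₁ - b₁ ^ 2) : ℤ) := by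
  set D : ℤ := 4 * a₁ * c₁ - b₁ ^ 2 with hDd
  have hDC : (D : ℂ) = 4 * a₁ * c₁ - b₁ ^ 2 := by rw [hDd]; push_cast; ring
  have hmmC : (D : ℂ) * (4 * a₂ * c₂ - b₂ ^ 2) = m ^ 2 := by exact_mod_cast hmm
  set t₁ : ℂ := 2 * a₁ * τ₁ + b₁ with ht₁
  set t₂ : ℂ := 2 * a₂ * τ₂ + b₂ with ht₂
  have q1 : t₁ ^ 2 = -D := by rw [ht₁, hDC]; linear_combination (4 * (a₁ : ℂ)) * e1
  have q2 : t₂ ^ 2 = -(4 * a₂ * c₂ - b₂ ^ 2) := by rw [ht₂]; linear_combination (4 * (a₂ : ℂ)) * e2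
  have i1 : 0 < t₁.im := by
    have : t₁.im = 2 * a₁ * (τ₁ : ℂ).im := by rw [ht₁]; simp
    rw [this]
    have h3 : (0 : ℝ) < a₁ := by exact_mod_cast h1
    have h4 : 0 < (τ₁ : ℂ).im := τ₁.im_pos
    positivity
  have i2 : 0 < t₂.im := by
    have : t₂.im = 2 * a₂ * (τ₂ : ℂ).im := by rw [ht₂]; simp
    rw [this]
    have h3 : (0 : ℝ) < a₂ := by exact_mod_cast h2
    have h4 : 0 < (τ₂ : ℂ).im := τ₂.im_pos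
    positivity
  have q3 : (t₂ * D - m * t₁) * (t₂ * D + m * t₁) = 0 := by
    linear_combination (D : ℂ) ^ 2 * q2 - (m : ℂ) ^ 2 * q1 - (D : ℂ) * hmmC
  have q4 : t₂ * D - m * t₁ = 0 := by
    rcases mul_eq_zero.1 q3 with h | h
    · exact h
    · exfalso
      have h5 := congrArg Complex.im h
      have h6 : (t₂ * D + m * t₁).im = t₂.im * D + m * t₁.im := by simp
      rw [h6, Complex.zero_im] at h5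
      have h7 : (0 : ℝ) < D := by exact_mod_cast hD
      have h8 : (0 : ℝ) < m := by exact_mod_cast hm
      have : 0 < t₂.im * D + m * t₁.im := by positivity
      exact this.ne' h5
  rw [ht₁, ht₂] at q4
  push_cast
  linear_combination q4

/-- everything, positive leading coefficients -/
theorem cm_D0 : ∃ C : ℕ, ∀ H : ℕ, 2 ≤ H → ∀ (τ₁ τ₂ : ℍ) (a₁ b₁ c₁ a₂ b₂ c₂ m : ℤ), 0 < a₁ → 0 < a₂ → 0 < m →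
      |a₁| ≤ H → |b₁| ≤ H → |c₁| ≤ H → |a₂| ≤ H → |b₂| ≤ H → |c₂| ≤ H →
      (a₁ : ℂ) * (τ₁ : ℂ) ^ 2 + b₁ * τ₁ + c₁ = 0 → (a₂ : ℂ) * (τ₂ : ℂ) ^ 2 + b₂ * τ₂ + c₂ = 0 →
      (4 * a₁ * c₁ - b₁ ^ 2) * (4 * a₂ * c₂ - b₂ ^ 2) = m ^ 2 →
      Bdd ((H : ℝ) ^ C) (H ^ C) (discriminant τ₂ / discriminant τ₁) := by
  obtain ⟨C₀, hC₀⟩ := cm_main
  obtain ⟨C₁, hC₁, hdl⟩ := conj_dl
  obtain ⟨k, hk⟩ := pow_unbounded_of_one_lt (C₁ + 20) (one_lt_two)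
  refine ⟨240 + C₀ + k, fun H hH τ₁ τ₂ a₁ b₁ c₁ a₂ b₂ c₂ m h1 h2 hm u1 v1 w1 u2 v2 w2 e1 e2 hmm => ?_⟩
  obtain ⟨hji, hjd, hjc⟩ := hC₀ H hH τ₁ a₁ b₁ c₁ h1.ne' u1 v1 w1 e1
  have hK1 : 0 < 4 * a₁ * c₁ - b₁ ^ 2 := H294ZP.H610.disc_pos τ₁ a₁ b₁ c₁ h1.ne' e1
  have hK2 : 0 < 4 * a₂ * c₂ - b₂ ^ 2 := H294ZP.H610.disc_pos τ₂ a₂ b₂ c₂ h2.ne' e2
  have hsf := same_field h1 h2 hm e1 e2 hK1 hmm
  have hH1n : 1 ≤ H := by omega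
  have hHz : (2 : ℤ) ≤ H := by exact_mod_cast hH
  -- the size of the discriminants
  have hsz : ∀ a b c : ℤ, |a| ≤ H → |c| ≤ H → 4 * a * c - b ^ 2 ≤ 4 * (H : ℤ) ^ 2 := by
    intro a b c ha hc
    have h3 : a * c ≤ (H : ℤ) ^ 2 := by
      calc a * c ≤ |a * c| := le_abs_self _
        _ = |a| * |c| := abs_mul _ _
        _ ≤ H * H := mul_le_mul ha hc (abs_nonneg _) (by positivity)
        _ = (H : ℤ) ^ 2 := by ring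
    nlinarith [sq_nonneg b]
  have z1 := hsz a₁ b₁ c₁ u1 w1
  have z2 := hsz a₂ b₂ c₂ u2 w2
  have hmH : m ≤ 4 * (H : ℤ) ^ 2 := by
    have h3 : m ^ 2 ≤ (4 * (H : ℤ) ^ 2) ^ 2 := by
      rw [← hmm, sq (4 * (H : ℤ) ^ 2)]
      exact mul_le_mul z1 z2 hK2.le (by positivity)
    exact le_of_sq_le_sq h3 (by positivity)
  have ha1 : a₁ ≤ H := (le_abs_self _).trans u1
  have ha2 : a₂ ≤ H := (le_abs_self _).trans u2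
  obtain ⟨a', ha'⟩ : ∃ a' : ℕ, (a' : ℤ) = 2 * a₁ * m := ⟨_, Int.toNat_of_nonneg (by positivity)⟩
  obtain ⟨d', hd'⟩ : ∃ d' : ℕ, (d' : ℤ) = 2 * a₂ * (4 * a₁ * c₁ - b₁ ^ 2) := ⟨_, Int.toNat_of_nonneg (by positivity)⟩
  have ha'0 : 0 < a' := by
    have : (0 : ℤ) < a' := by rw [ha']; positivity
    exact_mod_cast this
  have hd'0 : 0 < d' := by
    have : (0 : ℤ) < d' := by rw [hd']; positivity
    exact_mod_cast this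
  have h8 : ∀ x : ℤ, x ≤ 2 * H * (4 * (H : ℤ) ^ 2) → x ≤ (H : ℤ) ^ 6 := by
    intro x hx
    refine hx.trans ?_
    have h3 : (8 : ℤ) ≤ (H : ℤ) ^ 3 := by
      calc (8 : ℤ) = 2 ^ 3 := by norm_num
        _ ≤ (H : ℤ) ^ 3 := by gcongr
    calc 2 * (H : ℤ) * (4 * (H : ℤ) ^ 2) = 8 * (H : ℤ) ^ 3 := by ring
      _ ≤ (H : ℤ) ^ 3 * (H : ℤ) ^ 3 := by gcongr
      _ = (H : ℤ) ^ 6 := by ring
  have ha'H : a' ≤ H ^ 6 := by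
    have h3 : (a' : ℤ) ≤ (H : ℤ) ^ 6 := by
      apply h8
      rw [ha']
      gcongr
    exact_mod_cast h3
  have hd'H : d' ≤ H ^ 6 := by
    have h3 : (d' : ℤ) ≤ (H : ℤ) ^ 6 := by
      apply h8
      rw [hd']
      gcongr
    exact_mod_cast h3
  set N := a' * d' with hN
  have hN0 : 0 < N := Nat.mul_pos ha'0 hd'0
  have hNH : N ≤ H ^ 12 := by
    calc N ≤ H ^ 6 * H ^ 6 := Nat.mul_le_mul ha'H hd'H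
      _ = H ^ 12 := by ring
  have hw : (τ₂ : ℂ) * (d' : ℂ) = (a' : ℂ) * τ₁ + (b₁ * m - b₂ * (4 * a₁ * c₁ - b₁ ^ 2) : ℤ) := by
    have f1 : (d' : ℂ) = ((2 * a₂ * (4 * a₁ * c₁ - b₁ ^ 2) : ℤ) : ℂ) := by rw [← hd']; push_cast; rfl
    have f2 : (a' : ℂ) = ((2 * a₁ * m : ℤ) : ℂ) := by rw [← ha']; push_cast; rfl
    rw [f1, f2]
    exact hsf
  obtain ⟨g1, g2, g3⟩ := hdl N hN0 a' d' _ rfl τ₁ τ₂ hw hji (H ^ C₀)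
    (Real.exp ((H : ℝ) ^ C₀)) (Real.one_le_exp (by positivity)) hjd hjc
  have hHr : (2 : ℝ) ≤ H := by exact_mod_cast hH
  have hH1 : (1 : ℝ) ≤ H := by linarith
  have hcast : (((a' ^ 12 : ℕ) : ℂ)) = (a' : ℂ) ^ 12 := by push_cast; rfl
  refine ⟨a' ^ 12, Nat.pow_pos ha'0, ?_, ?_, ?_, ?_⟩
  · calc a' ^ 12 ≤ (H ^ 6) ^ 12 := Nat.pow_le_pow_left ha'H 12
      _ = H ^ 72 := by ring
      _ ≤ H ^ (240 + C₀ + k) := Nat.pow_le_pow_right hH1n (by omega)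
  · rw [hcast]
    exact g1
  · rw [hcast]
    refine g2.trans ?_
    calc N ^ 3 * H ^ C₀ ≤ (H ^ 12) ^ 3 * H ^ C₀ := by gcongr
      _ = H ^ (36 + C₀) := by ring
      _ ≤ H ^ (240 + C₀ + k) := Nat.pow_le_pow_right hH1n (by omega)
  · intro x hx
    rw [hcast] at hx
    obtain ⟨σ, hσ⟩ := exists_conj_aut ((g1.tower_top (A := ℚ)).isAlgebraic) hx
    rw [← hσ]
    refine (g3 σ).trans ?_
    have hNr : (N : ℝ) ≤ (H : ℝ) ^ 12 := by exact_mod_cast hNH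
    have hN2 : (N : ℝ) ^ 2 ≤ (H : ℝ) ^ 24 := by
      calc (N : ℝ) ^ 2 ≤ ((H : ℝ) ^ 12) ^ 2 := by gcongr
        _ = (H : ℝ) ^ 24 := by ring
    have X1 : (1 + C₁ * (N : ℝ) ^ 18) ^ (N ^ 2) ≤ Real.exp (C₁ * (H : ℝ) ^ 240) := by
      calc (1 + C₁ * (N : ℝ) ^ 18) ^ (N ^ 2) ≤ (Real.exp (C₁ * (N : ℝ) ^ 18)) ^ (N ^ 2) := by
            gcongr
            rw [add_comm]
            exact Real.add_one_le_exp _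
        _ = Real.exp (C₁ * (N : ℝ) ^ 20) := by
            rw [← Real.exp_nat_mul]
            congr 1
            push_cast
            ring
        _ ≤ Real.exp (C₁ * ((H : ℝ) ^ 12) ^ 20) := by gcongr
        _ = Real.exp (C₁ * (H : ℝ) ^ 240) := by congr 1; ring
    have X2 : (Real.exp ((H : ℝ) ^ C₀)) ^ (N ^ 2) ≤ Real.exp ((H : ℝ) ^ 24 * (H : ℝ) ^ C₀) := by
      rw [← Real.exp_nat_mul]
      push_cast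
      gcongr
    have X0 : 1 + (N : ℝ) ^ 2 * ((N : ℝ) ^ 2 + 1) ≤ Real.exp (2 * (H : ℝ) ^ 48) := by
      have h1 := Real.add_one_le_exp (2 * (H : ℝ) ^ 48)
      have h3 : (1 : ℝ) ≤ (H : ℝ) ^ 24 := one_le_pow₀ hH1
      have h4 : (H : ℝ) ^ 48 = (H : ℝ) ^ 24 * (H : ℝ) ^ 24 := by ring
      have h5 : (0 : ℝ) ≤ (N : ℝ) ^ 2 := by positivity
      nlinarith
    have Y1 : (1 : ℝ) ≤ Real.exp (C₁ * (H : ℝ) ^ 240) := Real.one_le_exp (by positivity)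
    have Y2 : (1 : ℝ) ≤ Real.exp ((H : ℝ) ^ 24 * (H : ℝ) ^ C₀) := Real.one_le_exp (by positivity)
    have Y3 : (1 : ℝ) ≤ Real.exp (C₁ * (H : ℝ) ^ 240) * Real.exp ((H : ℝ) ^ 24 * (H : ℝ) ^ C₀) :=
      one_le_mul_of_one_le_of_one_le Y1 Y2
    calc 1 + (N : ℝ) ^ 2 * (((N : ℝ) ^ 2 + 1) * (1 + C₁ * (N : ℝ) ^ 18) ^ (N ^ 2) *
          (Real.exp ((H : ℝ) ^ C₀)) ^ (N ^ 2))
        ≤ 1 + (N : ℝ) ^ 2 * (((N : ℝ) ^ 2 + 1) * Real.exp (C₁ * (H : ℝ) ^ 240) *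
          Real.exp ((H : ℝ) ^ 24 * (H : ℝ) ^ C₀)) := by gcongr
      _ ≤ 1 * (Real.exp (C₁ * (H : ℝ) ^ 240) * Real.exp ((H : ℝ) ^ 24 * (H : ℝ) ^ C₀)) +
          (N : ℝ) ^ 2 * ((N : ℝ) ^ 2 + 1) * (Real.exp (C₁ * (H : ℝ) ^ 240) *
          Real.exp ((H : ℝ) ^ 24 * (H : ℝ) ^ C₀)) := by
          rw [one_mul]
          refine add_le_add Y3 (le_of_eq ?_)
          ring
      _ = (1 + (N : ℝ) ^ 2 * ((N : ℝ) ^ 2 + 1)) * (Real.exp (C₁ * (H : ℝ) ^ 240) *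
          Real.exp ((H : ℝ) ^ 24 * (H : ℝ) ^ C₀)) := by ring
      _ ≤ Real.exp (2 * (H : ℝ) ^ 48) * (Real.exp (C₁ * (H : ℝ) ^ 240) *
          Real.exp ((H : ℝ) ^ 24 * (H : ℝ) ^ C₀)) := by gcongr
      _ = Real.exp (2 * (H : ℝ) ^ 48 + (C₁ * (H : ℝ) ^ 240 + (H : ℝ) ^ 24 * (H : ℝ) ^ C₀)) := by
          rw [← Real.exp_add, ← Real.exp_add]
      _ ≤ Real.exp ((H : ℝ) ^ (240 + C₀ + k)) := by
        apply Real.exp_le_exp.2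
        have t1 : (H : ℝ) ^ 48 ≤ (H : ℝ) ^ (240 + C₀) := pow_le_pow_right₀ hH1 (by omega)
        have t2 : (H : ℝ) ^ 24 * (H : ℝ) ^ C₀ ≤ (H : ℝ) ^ (240 + C₀) := by
          rw [← pow_add]
          exact pow_le_pow_right₀ hH1 (by omega)
        have t3 : C₁ * (H : ℝ) ^ 240 ≤ C₁ * (H : ℝ) ^ (240 + C₀) :=
          mul_le_mul_of_nonneg_left (pow_le_pow_right₀ hH1 (by omega)) (by linarith)
        calc 2 * (H : ℝ) ^ 48 + (C₁ * (H : ℝ) ^ 240 + (H : ℝ) ^ 24 * (H : ℝ) ^ C₀) ≤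
              (C₁ + 20) * (H : ℝ) ^ (240 + C₀) := by
              have : (0 : ℝ) ≤ (H : ℝ) ^ (240 + C₀) := by positivity
              nlinarith
          _ ≤ 2 ^ k * (H : ℝ) ^ (240 + C₀) := by gcongr
          _ ≤ (H : ℝ) ^ k * (H : ℝ) ^ (240 + C₀) := by gcongr
          _ = (H : ℝ) ^ (240 + C₀ + k) := by rw [← pow_add]; ring_nf

/-- everything -/
theorem cm_D : ∃ C : ℕ, ∀ H : ℕ, 2 ≤ H → ∀ (τ₁ τ₂ : ℍ) (a₁ b₁ c₁ a₂ b₂ c₂ m : ℤ), a₁ ≠ 0 → a₂ ≠ 0 →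
      |a₁| ≤ H → |b₁| ≤ H → |c₁| ≤ H → |a₂| ≤ H → |b₂| ≤ H → |c₂| ≤ H →
      (a₁ : ℂ) * (τ₁ : ℂ) ^ 2 + b₁ * τ₁ + c₁ = 0 → (a₂ : ℂ) * (τ₂ : ℂ) ^ 2 + b₂ * τ₂ + c₂ = 0 →
      (4 * a₁ * c₁ - b₁ ^ 2) * (4 * a₂ * c₂ - b₂ ^ 2) = m ^ 2 →
      Bdd ((H : ℝ) ^ C) (H ^ C) (discriminant τ₂ / discriminant τ₁) := by
  obtain ⟨C, hC⟩ := cm_D0
  refine ⟨C, fun H hH τ₁ τ₂ a₁ b₁ c₁ a₂ b₂ c₂ m h1 h2 u1 v1 w1 u2 v2 w2 e1 e2 hmm => ?_⟩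
  have key : ∀ (τ : ℍ) (a b c : ℤ), a ≠ 0 → |a| ≤ H → |b| ≤ H → |c| ≤ H → (a : ℂ) * (τ : ℂ) ^ 2 + b * τ + c = 0 →
      ∃ a' b' c' : ℤ, 0 < a' ∧ |a'| ≤ H ∧ |b'| ≤ H ∧ |c'| ≤ H ∧ (a' : ℂ) * (τ : ℂ) ^ 2 + b' * τ + c' = 0 ∧
      4 * a' * c' - b' ^ 2 = 4 * a * c - b ^ 2 := by
    intro τ a b c ha hu hv hw he
    rcases lt_or_gt_of_ne ha with h | h
    · refine ⟨-a, -b, -c, by omega, by rwa [abs_neg], by rwa [abs_neg], by rwa [abs_neg], ?_, by ring⟩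
      push_cast
      linear_combination -he
    · exact ⟨a, b, c, h, hu, hv, hw, he, rfl⟩
  obtain ⟨x₁, y₁, z₁, p1, p2, p3, p4, p5, p6⟩ := key τ₁ a₁ b₁ c₁ h1 u1 v1 w1 e1
  obtain ⟨x₂, y₂, z₂, q1, q2, q3, q4, q5, q6⟩ := key τ₂ a₂ b₂ c₂ h2 u2 v2 w2 e2
  have hK1 : 0 < 4 * a₁ * c₁ - b₁ ^ 2 := H294ZP.H610.disc_pos τ₁ a₁ b₁ c₁ h1 e1
  have hK2 : 0 < 4 * a₂ * c₂ - b₂ ^ 2 := H294ZP.H610.disc_pos τ₂ a₂ b₂ c₂ h2 e2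
  have hm0 : m ≠ 0 := by
    rintro rfl
    have : 0 < (4 * a₁ * c₁ - b₁ ^ 2) * (4 * a₂ * c₂ - b₂ ^ 2) := mul_pos hK1 hK2
    rw [hmm] at this
    simp at this
  exact hC H hH τ₁ τ₂ x₁ y₁ z₁ x₂ y₂ z₂ |m| p1 q1 (abs_pos.2 hm0) p2 p3 p4 q2 q3 q4 p5 q5 (by rw [p6, q6, sq_abs, hmm])

end Pool.Agent.H73.MR
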