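import Pool.Agent.H73.MR.Fn

/-!
# The functions `j (T_i)`, `V_i` and `Δ (T_i) / Δ (T_0)` near a point with good approximations
-/

set_option autoImplicit false

open Filter Topology MvPolynomial UpperHalfPlane

noncomputable section

namespace Pool.Agent.H73.MR

open Pool.Agent.NH23.Core
open Pool.Agent.NH23.Qua
open Pool.Agent.NH23.CM (vl cm_main)
open Pool.Agent.Y776 (jf)
open Pool.Agent.Y776.AxJ (an_j)
open Pool.Agent.H73.ML

variable {m n : ℕ} {ξ : Fin m → ℝ} {A B C : Fin n → MvPolynomial (Fin m) ℤ} {z : Fin n → ℂ}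

/-- the functions -/
def Yr (A B C : Fin n → MvPolynomial (Fin m) ℤ) (i₀ : Fin n) (k : Fin n × Fin 3) (x : Fin m → ℂ) : ℂ :=
  (![Yf A B C (k.1, 0) x, Yf A B C (k.1, 1) x,
    dd (Tf (A k.1) (B k.1) (C k.1) x) / dd (Tf (A i₀) (B i₀) (C i₀) x)] : Fin 3 → ℂ) k.2

theorem an_Yr {x : Fin m → ℂ} (i₀ : Fin n) (k : Fin n × Fin 3) (hA : ∀ i, 0 < (aeval x (A i) : ℂ).re)
    (hD : ∀ i, 0 < (Df (A i) (B i) (C i) x).re) (hT : ∀ i, 0 < (Tf (A i) (B i) (C i) x).im)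
    (hd : ∀ i, deriv jf (Tf (A i) (B i) (C i) x) ≠ 0) : AnalyticAt ℂ (Yr A B C i₀ k) x := by
  rcases k with ⟨i, l⟩
  have h0 : ∀ i, aeval x (A i) ≠ (0 : ℂ) := by
    intro i h0
    have := hA i
    rw [h0] at this
    exact lt_irrefl _ this
  have hTf : ∀ i, AnalyticAt ℂ (Tf (A i) (B i) (C i)) x := fun i => an_Tf _ _ _ (h0 i) (Or.inl (hD i))
  have key : ∀ i, AnalyticAt ℂ (fun x => dd (Tf (A i) (B i) (C i) x)) x := fun i =>
    AnalyticAt.fun_comp (g := dd) (f := Tf (A i) (B i) (C i)) (an_dd _ (hT i)) (hTf i)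
  fin_cases l
  · exact an_Yf (i, 0) (hA i) (hD i) (hT i) (hd i)
  · exact an_Yf (i, 1) (hA i) (hD i) (hT i) (hd i)
  · exact (key i).div (key i₀) (dd_ne (hT i₀))

/-- the values at a rational point are CM, with the coefficients -/
theorem val_pt2 {M : ℝ} {k₁ : ℕ} (hk : M ≤ 2 ^ k₁) {q : ℕ} (hq : 2 ≤ q) {p : Fin m → ℤ} {a : Fin m → ℝ}
    (ha : a = fun i => (p i : ℝ) / q) (i : Fin n) (hA : 0 < aeval a (A i))
    (hA' : |aeval a (A i)| ≤ M) (hB' : |aeval a (B i)| ≤ M) (hC' : |aeval a (C i)| ≤ M) : ∃ u v w : ℤ, u ≠ 0 ∧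
      |u| ≤ ((q ^ (dg A B C + k₁ + 1) : ℕ) : ℤ) ∧ |v| ≤ ((q ^ (dg A B C + k₁ + 1) : ℕ) : ℤ) ∧
      |w| ≤ ((q ^ (dg A B C + k₁ + 1) : ℕ) : ℤ) ∧
      (u : ℂ) * Tf (A i) (B i) (C i) (cx a) ^ 2 + v * Tf (A i) (B i) (C i) (cx a) + w = 0 ∧
      ((4 * u * w - v ^ 2 : ℤ) : ℝ) = (q : ℝ) ^ (2 * dg A B C) * (4 * aeval a (A i) * aeval a (C i) - aeval a (B i) ^ 2) := by
  subst ha
  have hq0 : q ≠ 0 := by omega
  obtain ⟨u, hu⟩ := exists_int (A i) (dg_le A B C i).1 hq0 p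
  obtain ⟨v, hv⟩ := exists_int (B i) (dg_le A B C i).2.1 hq0 p
  obtain ⟨w, hw⟩ := exists_int (C i) (dg_le A B C i).2.2 hq0 p
  set a : Fin m → ℝ := fun i => (p i : ℝ) / q with ha
  have hqr : (2 : ℝ) ≤ q := by exact_mod_cast hq
  have hq1 : (1 : ℝ) ≤ q := by linarith
  have hqp : (0 : ℝ) < (q : ℝ) ^ (dg A B C) := by positivity
  have bd : ∀ (x : ℤ) (y : ℝ), (x : ℝ) = (q : ℝ) ^ dg A B C * y → |y| ≤ M → |x| ≤ ((q ^ (dg A B C + k₁ + 1) : ℕ) : ℤ) := by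
    intro x y hxy hy
    have h1 : |(x : ℝ)| ≤ (q : ℝ) ^ (dg A B C + k₁ + 1) := by
      rw [hxy, abs_mul, abs_of_pos hqp, add_assoc, pow_add]
      refine mul_le_mul_of_nonneg_left ?_ hqp.le
      calc |y| ≤ M := hy
        _ ≤ 2 ^ k₁ := hk
        _ ≤ (q : ℝ) ^ k₁ := pow_le_pow_left₀ (by norm_num) hqr _
        _ ≤ (q : ℝ) ^ (k₁ + 1) := pow_le_pow_right₀ hq1 (by omega)
    have h2 : ((|x| : ℤ) : ℝ) ≤ (((q ^ (dg A B C + k₁ + 1) : ℕ) : ℤ) : ℝ) := by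
      push_cast
      exact h1
    exact_mod_cast h2
  refine ⟨u, v, w, ?_, bd u _ hu hA', bd v _ hv hB', bd w _ hw hC', ?_, ?_⟩
  · rintro rfl
    have : (0 : ℝ) < (q : ℝ) ^ dg A B C * aeval a (A i) := mul_pos hqp hA
    rw [← hu] at this
    exact lt_irrefl _ (by exact_mod_cast this)
  · have h1 := rt_root (a := ((aeval a (A i) : ℝ) : ℂ)) (b := ((aeval a (B i) : ℝ) : ℂ)) (c := ((aeval a (C i) : ℝ) : ℂ))
      (by exact_mod_cast hA.ne')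
    rw [← Tf_eq] at h1
    have hu' : (u : ℂ) = (q : ℂ) ^ dg A B C * ((aeval a (A i) : ℝ) : ℂ) := by
      rw [← Complex.ofReal_intCast, hu]
      push_cast
      rfl
    have hv' : (v : ℂ) = (q : ℂ) ^ dg A B C * ((aeval a (B i) : ℝ) : ℂ) := by
      rw [← Complex.ofReal_intCast, hv]
      push_cast
      rfl
    have hw' : (w : ℂ) = (q : ℂ) ^ dg A B C * ((aeval a (C i) : ℝ) : ℂ) := by
      rw [← Complex.ofReal_intCast, hw]
      push_cast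
      rfl
    rw [hu', hv', hw']
    linear_combination (q : ℂ) ^ dg A B C * h1
  · push_cast
    rw [hu, hv, hw]
    ring

/-- a square of a rational number which is an integer -/
theorem sq_int {X R S : ℤ} (hR : R ≠ 0) (h : X * R ^ 2 = S ^ 2) : ∃ m : ℤ, X = m ^ 2 := by
  have h1 : R ^ 2 ∣ S ^ 2 := ⟨X, by rw [← h]; ring⟩
  have h2 : R ∣ S := (Int.pow_dvd_pow_iff two_ne_zero).1 h1
  obtain ⟨m, hm⟩ := h2
  refine ⟨m, ?_⟩
  have h3 : R ^ 2 ≠ 0 := pow_ne_zero 2 hR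
  apply mul_right_cancel₀ h3
  rw [h, hm]
  ring

/-- all the points in one quadratic extension -/
def Sqr (A B C : Fin n → MvPolynomial (Fin m) ℤ) (ξ : Fin m → ℝ) (i₀ : Fin n) : Prop :=
  ∀ i, ∃ P Q : MvPolynomial (Fin m) ℤ, aeval (cx ξ) Q ≠ (0 : ℂ) ∧
    Q ^ 2 * ((4 * A i₀ * C i₀ - B i₀ ^ 2) * (4 * A i * C i - B i ^ 2)) = P ^ 2

/-- the values at rational points are bounded -/
theorem val_Yr (hd : ∀ i, deriv jf (z i) ≠ 0) (h : Qd ξ A B C z) {i₀ : Fin n} (hs : Sqr A B C ξ i₀) :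
    ∃ c : ℕ, ∀ᶠ x in 𝓝 (cx ξ), ∀ (q : ℕ) (p : Fin m → ℤ), 2 ≤ q → x = cx (fun i => (p i : ℝ) / q) →
      ∀ k, Bdd ((q : ℝ) ^ c) (q ^ c) (Yr A B C i₀ k x) := by
  classical
  obtain ⟨c₂, hc₂⟩ := val_Yf hd h
  set M : ℝ := (∑ i, (‖(aeval (cx ξ) (A i) : ℂ)‖ + ‖(aeval (cx ξ) (B i) : ℂ)‖ + ‖(aeval (cx ξ) (C i) : ℂ)‖)) + 1 with hM
  have hMi : ∀ i, ‖(aeval (cx ξ) (A i) : ℂ)‖ + ‖(aeval (cx ξ) (B i) : ℂ)‖ + ‖(aeval (cx ξ) (C i) : ℂ)‖ + 1 ≤ M := by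
    intro i
    have := Finset.single_le_sum (f := fun i => ‖(aeval (cx ξ) (A i) : ℂ)‖ + ‖(aeval (cx ξ) (B i) : ℂ)‖ +
      ‖(aeval (cx ξ) (C i) : ℂ)‖) (fun _ _ => by positivity) (Finset.mem_univ i)
    linarith
  obtain ⟨k₁, hk₁⟩ := pow_unbounded_of_one_lt M (one_lt_two)
  obtain ⟨C₁, hC₁⟩ := cm_D
  set c' := dg A B C + k₁ + 1 with hc'
  have hA1 : ∀ᶠ x in 𝓝 (cx ξ), ∀ i, ‖(aeval x (A i) : ℂ)‖ ≤ M ∧ ‖(aeval x (B i) : ℂ)‖ ≤ M ∧
      ‖(aeval x (C i) : ℂ)‖ ≤ M := by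
    rw [eventually_all]
    intro i
    filter_upwards [ev_bd ξ (A i), ev_bd ξ (B i), ev_bd ξ (C i)] with x h1 h2 h3
    have := hMi i
    have n1 := norm_nonneg (aeval (cx ξ) (A i) : ℂ)
    have n2 := norm_nonneg (aeval (cx ξ) (B i) : ℂ)
    have n3 := norm_nonneg (aeval (cx ξ) (C i) : ℂ)
    exact ⟨by linarith, by linarith, by linarith⟩
  choose P Q hQ hPQ using hs
  have hQ1 : ∀ᶠ x in 𝓝 (cx ξ), ∀ i, aeval x (Q i) ≠ (0 : ℂ) := by
    rw [eventually_all]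
    intro i
    exact (an_poly (Q i) (cx ξ)).continuousAt.eventually_ne (hQ i)
  refine ⟨c₂ + c' * C₁, ?_⟩
  filter_upwards [h.ev, hA1, hc₂, hQ1] with x e1 e2 e3 e4 q p hq hx k
  have hq1 : (1 : ℝ) ≤ q := by exact_mod_cast (by omega : 1 ≤ q)
  have hq1n : 1 ≤ q := by omega
  rcases k with ⟨i, l⟩
  have hY : ∀ l : Fin 2, Bdd ((q : ℝ) ^ (c₂ + c' * C₁)) (q ^ (c₂ + c' * C₁)) (Yf A B C (i, l) x) := fun l =>
    (e3 q p hq hx (i, l)).mono (pow_le_pow_right₀ hq1 (Nat.le_add_right _ _)) (Nat.pow_le_pow_right hq1n (Nat.le_add_right _ _))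
  fin_cases l
  · exact hY 0
  · exact hY 1
  · change Bdd _ _ (dd (Tf (A i) (B i) (C i) x) / dd (Tf (A i₀) (B i₀) (C i₀) x))
    set a : Fin m → ℝ := fun i => (p i : ℝ) / q with ha
    have hav : ∀ D : MvPolynomial (Fin m) ℤ, ‖(aeval (cx a) D : ℂ)‖ = |aeval a D| := by
      intro D
      rw [aeval_cx, Complex.norm_real, Real.norm_eq_abs]
    subst hx
    have hre : ∀ i, 0 < aeval a (A i) := by
      intro i
      have := (e1 i).1
      rwa [aeval_cx, Complex.ofReal_re] at this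
    set H : ℕ := q ^ c' with hH
    have hH2 : 2 ≤ H := hq.trans (Nat.le_self_pow (by omega) _)
    obtain ⟨u, v, w, hu0, hu, hv, hw, hroot, hdi⟩ := val_pt2 (A := A) (B := B) (C := C) (hk₁.le) hq (p := p) (a := a) rfl i
      (hre i) (by rw [← hav]; exact (e2 i).1) (by rw [← hav]; exact (e2 i).2.1) (by rw [← hav]; exact (e2 i).2.2)
    obtain ⟨u', v', w', hu0', hu', hv', hw', hroot', hdi'⟩ := val_pt2 (A := A) (B := B) (C := C) (hk₁.le) hq (p := p)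
      (a := a) rfl i₀ (hre i₀) (by rw [← hav]; exact (e2 i₀).1) (by rw [← hav]; exact (e2 i₀).2.1)
      (by rw [← hav]; exact (e2 i₀).2.2)
    have hq0 : q ≠ 0 := by omega
    have hqr0 : (q : ℝ) ≠ 0 := by exact_mod_cast hq0
    -- the product of the discriminants is a square
    obtain ⟨mm, hmm⟩ : ∃ mm : ℤ, (4 * u' * w' - v' ^ 2) * (4 * u * w - v ^ 2) = mm ^ 2 := by
      set e := max (P i).totalDegree (Q i).totalDegree with he
      obtain ⟨NP, hNP⟩ := exists_int (P i) (d := e) (le_max_left _ _) hq0 p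
      obtain ⟨NQ, hNQ⟩ := exists_int (Q i) (d := e) (le_max_right _ _) hq0 p
      have hNQ0 : NQ ≠ 0 := by
        rintro rfl
        have h1 := e4 i
        rw [aeval_cx] at h1
        have h2 : (aeval a (Q i) : ℝ) ≠ 0 := by exact_mod_cast h1
        have h3 : (q : ℝ) ^ e * aeval a (Q i) ≠ 0 := mul_ne_zero (pow_ne_zero _ hqr0) h2
        apply h3
        rw [← hNQ]
        simp
      refine sq_int (R := NQ) (S := (q : ℤ) ^ (2 * dg A B C) * NP) hNQ0 ?_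
      have h5 := congrArg (fun G : MvPolynomial (Fin m) ℤ => (aeval a G : ℝ)) (hPQ i)
      simp only [map_mul, map_pow, map_sub, map_ofNat] at h5
      have h6 : (((4 * u' * w' - v' ^ 2) * (4 * u * w - v ^ 2) * NQ ^ 2 : ℤ) : ℝ) =
          (((q : ℤ) ^ (2 * dg A B C) * NP : ℤ) : ℝ) ^ 2 := by
        rw [Int.cast_mul, Int.cast_mul, hdi, hdi', Int.cast_pow, hNQ, Int.cast_mul, hNP]
        push_cast
        linear_combination ((q : ℝ) ^ (2 * dg A B C)) ^ 2 * ((q : ℝ) ^ e) ^ 2 * h5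
      exact_mod_cast h6
    have g := hC₁ H hH2 ⟨_, (e1 i₀).2.2⟩ ⟨_, (e1 i).2.2⟩ u' v' w' u v w mm hu0' hu0 hu' hv' hw' hu hv hw hroot' hroot hmm
    rw [← dd_eq (e1 i).2.2, ← dd_eq (e1 i₀).2.2] at g
    refine g.mono ?_ ?_
    · rw [hH]
      push_cast
      rw [← pow_mul]
      exact pow_le_pow_right₀ hq1 (Nat.le_add_left _ _)
    · rw [hH, ← pow_mul]
      exact Nat.pow_le_pow_right hq1n (Nat.le_add_left _ _)

end Pool.Agent.H73.MR
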