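import Pool.Agent.H73.MR.Co

/-!
# No relations at a point with good approximations, and real fields
-/

set_option autoImplicit false

open Filter Topology MvPolynomial UpperHalfPlane IntermediateField

noncomputable section

namespace Pool.Agent.H73.MR

open Pool.Agent.NH23.Core
open Pool.Agent.NH23.Qua
open Pool.Agent.NH23.Fld
open Pool.Agent.NH23.Pair (Alg)
open Pool.Agent.NH23.Tup (Tpl)
open Pool.Agent.Y776 (jf)
open Pool.Agent.Y776.AxJ (an_j)
open Pool.Agent.H73.ML

variable {m n N : ℕ} {ξ : Fin m → ℝ} {A B C : Fin n → MvPolynomial (Fin m) ℤ} {z : Fin n → ℂ}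

theorem core2R (hξ : Hc ξ) (h : Qd ξ A B C z) (i₀ : Fin n) (hs : Sqr A B C ξ i₀)
    (hcm : ∀ i, ∀ a b c : ℤ, (a : ℂ) * z i ^ 2 + b * z i + c = 0 → a = 0)
    (hine : ∀ i k, i ≠ k → ∀ a b c d : ℚ, 0 < a * d - b * c → z k * (c * z i + d) ≠ a * z i + b)
    (e : Fin N ≃ Ix i₀)
    (F : MvPolynomial (Fin m ⊕ Fin N) ℤ) (h0 : aeval (Sum.elim (cx ξ) fun j => Yr A B C i₀ (e j).1 (cx ξ)) F = (0 : ℂ)) :
    ∀ y : Fin N → ℂ, aeval (Sum.elim (cx ξ) y) F = (0 : ℂ) := by
  classical
  have hd : ∀ i, deriv jf (z i) ≠ 0 := fun i => djf_ne (h.im i) (hcm i)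
  have hself := h.ev.self_of_nhds
  have hd1 : ∀ᶠ x in 𝓝 (cx ξ), ∀ i, deriv jf (Tf (A i) (B i) (C i) x) ≠ 0 := by
    rw [eventually_all]
    intro i
    have h0 : aeval (cx ξ) (A i) ≠ (0 : ℂ) := by
      intro h0
      have := (hself i).1
      rw [h0] at this
      exact lt_irrefl _ this
    have hTf : AnalyticAt ℂ (Tf (A i) (B i) (C i)) (cx ξ) := an_Tf _ _ _ h0 (Or.inl (hself i).2.1)
    have h2 : AnalyticAt ℂ (fun x => deriv jf (Tf (A i) (B i) (C i) x)) (cx ξ) :=
      AnalyticAt.fun_comp (g := deriv jf) (f := Tf (A i) (B i) (C i)) (an_j.deriv _ (hself i).2.2) hTf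
    apply h2.continuousAt.eventually_ne
    rw [h.val i]
    exact hd i
  obtain ⟨c, hc⟩ := val_Yr hd h hs
  have hrel := core_abs hξ (Y := fun j x => Yr A B C i₀ (e j).1 x) (fun j => an_Yr i₀ (e j).1 (fun i => (hself i).1)
    (fun i => (hself i).2.1) (fun i => (hself i).2.2) (fun i => by rw [h.val]; exact hd i)) (c := c) (by
      filter_upwards [hc] with x hx q p hq hxq j
      exact hx q p hq hxq (e j).1) F h0
  have hev := (hrel.and h.ev).and hd1
  -- the direction
  have hA0 : ∀ i, A i ≠ 0 := by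
    intro i hi
    have := h.pos i
    rw [hi, map_zero] at this
    exact lt_irrefl _ this
  obtain ⟨x₀, hx₀⟩ : ∃ x₀ : Fin m → ℂ, eval x₀ (∏ i, Qf (A i) (B i) (C i) (z i)) ≠ 0 := by
    by_contra hcon
    push Not at hcon
    have h1 : (∏ i, Qf (A i) (B i) (C i) (z i)) = 0 := MvPolynomial.funext fun x => by rw [hcon x, map_zero]
    obtain ⟨i, _, hi⟩ := Finset.prod_eq_zero_iff.1 h1
    exact Qf_ne (hA0 i) (hcm i) hi
  rw [map_prod] at hx₀
  have hx : ∀ i, eval x₀ (Qf (A i) (B i) (C i) (z i)) ≠ 0 := fun i hi =>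
    hx₀ (Finset.prod_eq_zero (Finset.mem_univ i) hi)
  set l : ℂ → Fin m → ℂ := fun t k => cx ξ k + t * (x₀ k - cx ξ k) with hl
  have hlan : ∀ t, AnalyticAt ℂ l t := by
    intro t
    rw [analyticAt_pi_iff]
    intro k
    exact analyticAt_const.add (analyticAt_id.mul analyticAt_const)
  have hl0 : l 0 = cx ξ := by
    funext k
    simp [hl]
  have hl1 : l 1 = x₀ := by
    funext k
    simp [hl]
  have hlt : Tendsto l (𝓝 0) (𝓝 (cx ξ)) := by
    have := (hlan 0).continuousAt.tendsto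
    rwa [hl0] at this
  obtain ⟨r, hr, hball⟩ := Metric.eventually_nhds_iff_ball.1 (hlt.eventually hev)
  set U := Metric.ball (0 : ℂ) r with hU
  have h0U : (0 : ℂ) ∈ U := Metric.mem_ball_self hr
  set τ : Fin n → ℂ → ℂ := fun i t => Tf (A i) (B i) (C i) (l t) with hτ
  set lam : Fin n → ℂ → ℂ := fun i t => Lf (A i) (B i) (C i) (l t) with hlam
  have hτ0 : ∀ i, τ i 0 = z i := by
    intro i
    rw [hτ]
    simp only
    rw [hl0]
    exact h.val i
  have hAne : ∀ i, ∀ t ∈ U, aeval (l t) (A i) ≠ (0 : ℂ) := by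
    intro i t ht h1
    have h2 := ((hball t ht).1.2 i).1
    rw [h1] at h2
    exact lt_irrefl _ h2
  have hroot : ∀ i, ∀ t ∈ U, aeval (l t) (A i) * τ i t ^ 2 + aeval (l t) (B i) * τ i t + aeval (l t) (C i) = 0 :=
    fun i t ht => rt_root (hAne i t ht)
  have hlev : ∀ (R : Type) [CommRing R] [Algebra ℤ R] (φ : R →+* ℂ) (g : Fin m → R) (t : ℂ) (P : MvPolynomial (Fin m) ℤ),
      (∀ k, φ (g k) = l t k) → φ (aeval g P) = aeval (l t) P := by
    intro R _ _ φ g t P hg
    rw [hom_aeval]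
    congr 2
    exact funext hg
  have htpl : Tpl U τ :=
    { op := Metric.isOpen_ball
      conn := (convex_ball _ _).isPreconnected
      ne := ⟨0, h0U⟩
      an := fun i t ht => AnalyticAt.fun_comp (g := Tf (A i) (B i) (C i)) (f := l)
        (an_Tf _ _ _ (hAne i t ht) (Or.inl ((hball t ht).1.2 i).2.1)) (hlan t)
      im := fun i t ht => ((hball t ht).1.2 i).2.2
      nc := by
        intro i c
        by_contra hcon
        push Not at hcon
        have hc : c = z i := by rw [← hcon 0 h0U, hτ0]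
        subst hc
        have han : AnalyticOnNhd ℂ (fun t => eval (l t) (Qf (A i) (B i) (C i) (z i))) Set.univ := by
          intro t _
          have h1 := (AnalyticOnNhd.eval_mvPolynomial (𝕜 := ℂ) (Qf (A i) (B i) (C i) (z i))) (l t) (Set.mem_univ _)
          exact AnalyticAt.fun_comp (g := fun x => eval x (Qf (A i) (B i) (C i) (z i))) (f := l) h1 (hlan t)
        have h1 := han.eqOn_zero_of_preconnected_of_eventuallyEq_zero isPreconnected_univ (Set.mem_univ (0 : ℂ)) (by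
          filter_upwards [Metric.isOpen_ball.mem_nhds h0U] with t ht
          have h2 := hroot i t ht
          rw [hcon t ht] at h2
          rw [Qf_eval, h2]
          rfl)
        have h2 := h1 (Set.mem_univ (1 : ℂ))
        simp only [Pi.zero_apply] at h2
        rw [hl1] at h2
        exact hx i h2
      alg := by
        intro i
        set g : Fin m → MvPolynomial (Fin 2) ℂ := fun k => MvPolynomial.C (cx ξ k) + X 0 * MvPolynomial.C (x₀ k - cx ξ k)
          with hg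
        have hgt : ∀ t s : ℂ, ∀ k, eval ![t, s] (g k) = l t k := by
          intro t s k
          simp [hg, hl]
        have hG : ∀ t s : ℂ, eval ![t, s] (aeval g (A i) * X 1 ^ 2 + aeval g (B i) * X 1 + aeval g (C i)) =
            aeval (l t) (A i) * s ^ 2 + aeval (l t) (B i) * s + aeval (l t) (C i) := by
          intro t s
          rw [map_add, map_add, map_mul, map_mul, map_pow, eval_X, hlev _ _ g t (A i) (hgt t s),
            hlev _ _ g t (B i) (hgt t s), hlev _ _ g t (C i) (hgt t s)]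
          rfl
        refine ⟨aeval g (A i) * X 1 ^ 2 + aeval g (B i) * X 1 + aeval g (C i), ?_, ?_⟩
        · intro hz
          have e0 := hG 0 0
          have e1 := hG 0 1
          have e2 := hG 0 (-1)
          rw [hz, map_zero] at e0 e1 e2
          apply hAne i 0 h0U
          linear_combination (-1 / 2 : ℂ) * e1 + (-1 / 2 : ℂ) * e2 + e0
        · intro t ht
          rw [hG]
          exact hroot i t ht
      inc := by
        intro i k hik a b c d hdet
        refine ⟨0, h0U, ?_⟩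
        rw [hτ0, hτ0]
        exact hine i k hik a b c d hdet }
  have hlan' : ∀ i, AnalyticOnNhd ℂ (lam i) U := fun i t ht =>
    AnalyticAt.fun_comp (g := Lf (A i) (B i) (C i)) (f := l) (an_Lf _ _ _ ((hball t ht).1.2 i).2.1) (hlan t)
  have hlal : ∀ i, Alg U (lam i) := by
    intro i
    set g : Fin m → MvPolynomial (Fin 2) ℂ := fun k => MvPolynomial.C (cx ξ k) + X 0 * MvPolynomial.C (x₀ k - cx ξ k)
      with hg
    have hgt : ∀ t s : ℂ, ∀ k, eval ![t, s] (g k) = l t k := by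
      intro t s k
      simp [hg, hl]
    have hG : ∀ t s : ℂ, eval ![t, s] ((4 * aeval g (A i) * aeval g (C i) - aeval g (B i) ^ 2) * X 1 ^ 2 +
        4 * aeval g (A i) ^ 2) = Df (A i) (B i) (C i) (l t) * s ^ 2 + 4 * (aeval (l t) (A i)) ^ 2 := by
      intro t s
      rw [map_add, map_mul, map_sub, map_mul, map_mul, map_mul, map_pow, map_pow, map_pow, eval_X,
        hlev _ _ g t (A i) (hgt t s), hlev _ _ g t (B i) (hgt t s), hlev _ _ g t (C i) (hgt t s), map_ofNat]
      rfl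
    refine ⟨(4 * aeval g (A i) * aeval g (C i) - aeval g (B i) ^ 2) * X 1 ^ 2 + 4 * aeval g (A i) ^ 2, ?_, ?_⟩
    · intro hz
      have e0 := hG 0 0
      rw [hz, map_zero] at e0
      apply hAne i 0 h0U
      have : (aeval (l 0) (A i) : ℂ) ^ 2 = 0 := by linear_combination (-1 / 4 : ℂ) * e0
      exact pow_eq_zero_iff (two_ne_zero) |>.1 this
    · intro t ht
      rw [hG]
      exact Lf_sq _ _ _ ((hball t ht).1.2 i).2.1
  have hdj : ∀ i, ∀ t ∈ U, deriv jf (τ i t) ≠ 0 := fun i t ht => (hball t ht).2 i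
  have hJJ : ∀ i, ∀ t ∈ U, jf (τ i t) ≠ 0 ∧ jf (τ i t) - 1728 ≠ 0 := by
    intro i t ht
    have him := htpl.im i t ht
    have h1 := hdj i t ht
    rw [dJ_djf him] at h1
    rw [J_jf him]
    exact JJ_ne him h1
  have hloc := locS htpl i₀ hlan' hlal hdj (fun i t ht => (hJJ i t ht).1) (fun i t ht => (hJJ i t ht).2) 0 h0U
  set G : Fin m ⊕ Fin N → MvPolynomial (Option (Ix i₀)) ℂ :=
    Sum.elim (fun k => MvPolynomial.C (cx ξ k) + X none * MvPolynomial.C (x₀ k - cx ξ k)) (fun j => X (some (e j))) with hG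
  have hGev : ∀ (t : ℂ) (y : Ix i₀ → ℂ), eval (fun o : Option (Ix i₀) => o.elim t y) (aeval G F) =
      aeval (Sum.elim (l t) fun j => y (e j)) F := by
    intro t y
    rw [hom_aeval]
    congr 2
    funext k
    rcases k with k | k
    · simp [hG, hl]
    · simp [hG]
  have hyr : ∀ t, ∀ k : Ix i₀, yr τ lam i₀ k.1 t = Yr A B C i₀ k.1 (l t) := by
    rintro t ⟨⟨i, l'⟩, hk⟩
    fin_cases l'
    · rfl
    · rfl
    · have hi : i ≠ i₀ := by
        rintro rfl
        exact hk rfl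
      simp only [yr, Yr, hi, if_false]
      rfl
  have hR : aeval G F = 0 := by
    apply hloc
    filter_upwards [Metric.isOpen_ball.mem_nhds h0U] with t ht
    rw [hGev]
    have h1 := (hball t ht).1.1
    rw [show (fun j => yr τ lam i₀ (e j).1 t) = fun j => Yr A B C i₀ (e j).1 (l t) from funext fun j => hyr t (e j)]
    exact h1
  intro y
  have h1 := hGev 0 (fun k => y (e.symm k))
  rw [hR, map_zero, hl0] at h1
  simp only [Equiv.symm_apply_apply] at h1
  exact h1.symm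

/-- the numbers -/
def Nr (z : Fin n → ℂ) (i₀ : Fin n) (k : Fin n × Fin 3) : ℂ :=
  (![jf (z k.1), Vn (z k.1), dd (z k.1) / dd (z i₀)] : Fin 3 → ℂ) k.2

/-- **the theorem for real fields** -/
theorem mainR {S : Set ℝ} (hS : Hier S) {n : ℕ} {z : Fin n → ℂ} (him : ∀ i, 0 < (z i).im) (i₀ : Fin n)
    {δ : ℂ} (hδ : δ ^ 2 ∈ adjoin ℚ ((fun x : ℝ => (x : ℂ)) '' S))
    (hz : ∀ i, ∃ a b : ℂ, a ∈ adjoin ℚ ((fun x : ℝ => (x : ℂ)) '' S) ∧ b ∈ adjoin ℚ ((fun x : ℝ => (x : ℂ)) '' S) ∧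
      z i = a + b * δ)
    (hcm : ∀ i, ∀ a b c : ℤ, (a : ℂ) * z i ^ 2 + b * z i + c = 0 → a = 0)
    (hine : ∀ i k, i ≠ k → ∀ a b c d : ℚ, 0 < a * d - b * c → z k * (c * z i + d) ≠ a * z i + b) {N : ℕ}
    (e : Fin N ≃ Ix i₀) :
    AlgebraicIndependent (adjoin ℚ ((fun x : ℝ => (x : ℂ)) '' S)) (fun k => Nr z i₀ (e k).1) := by
  classical
  apply indep
  intro W hW
  choose a b ha hb hab using hz
  obtain ⟨T, hT, hTW⟩ := exists_fin (W ∪ Finset.univ.image a ∪ Finset.univ.image b ∪ {δ ^ 2})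
    (S := (fun x : ℝ => (x : ℂ)) '' S) (by
      intro x hx
      simp only [Finset.coe_union, Finset.coe_image, Finset.coe_univ, Set.image_univ, Set.mem_union,
        Finset.coe_singleton, Set.mem_singleton_iff] at hx
      rcases hx with ((hx | ⟨i, rfl⟩) | ⟨i, rfl⟩) | rfl
      · exact hW hx
      · exact ha i
      · exact hb i
      · exact hδ)
  obtain ⟨m, ξ, hξT, hξ⟩ := hS (T.image Complex.re) (by
    intro x hx
    obtain ⟨y, hy, rfl⟩ := Finset.mem_image.1 (Finset.mem_coe.1 hx)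
    obtain ⟨s, hs, rfl⟩ := hT hy
    exact hs)
  have hrange : Set.range (cx ξ) = (T : Set ℂ) := by
    rw [range_cx hξT]
    ext x
    constructor
    · rintro ⟨y, hy, rfl⟩
      obtain ⟨w, hw, rfl⟩ := Finset.mem_image.1 (Finset.mem_coe.1 hy)
      obtain ⟨s, hs, rfl⟩ := hT hw
      exact hw
    · intro hx
      obtain ⟨s, hs, rfl⟩ := hT hx
      exact ⟨s, Finset.mem_coe.2 (Finset.mem_image.2 ⟨_, hx, rfl⟩), rfl⟩
  rw [← hrange] at hTW
  have hsub : ∀ x, x ∈ W ∪ Finset.univ.image a ∪ Finset.univ.image b ∪ {δ ^ 2} →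
      x ∈ adjoin ℚ (Set.range (cx ξ)) := fun x hx => hTW (Finset.mem_coe.2 hx)
  refine ⟨m, cx ξ, fun x hx => hsub x (by simp [Finset.mem_coe.1 hx]), ?_⟩
  set K := adjoin ℚ (Set.range (cx ξ)) with hK
  have ha' : ∀ i, a i ∈ K := fun i => hsub (a i) (by simp)
  have hb' : ∀ i, b i ∈ K := fun i => hsub (b i) (by simp)
  have hδ' : δ ^ 2 ∈ K := hsub _ (by simp)
  have hex : ∀ i, ∃ A B C : MvPolynomial (Fin m) ℤ, 0 < aeval ξ A ∧
      aeval (cx ξ) A * z i ^ 2 + aeval (cx ξ) B * z i + aeval (cx ξ) C = 0 := fun i =>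
    exists_ABC (a := 1) (b := -2 * a i) (c := a i ^ 2 - b i ^ 2 * δ ^ 2) (him i) (one_mem _)
      (mul_mem (neg_mem (ofNat_mem _ 2)) (ha' i)) (sub_mem (pow_mem (ha' i) 2) (mul_mem (pow_mem (hb' i) 2) hδ'))
      (Or.inl one_ne_zero) (by rw [hab i]; ring)
  choose A B C hpos heq using hex
  have hQ : Qd ξ A B C z := ⟨him, hpos, heq⟩
  -- the discriminants
  have hAne : ∀ i, aeval (cx ξ) (A i) ≠ (0 : ℂ) := by
    intro i h0
    have h1 := hpos i
    rw [aeval_cx] at h0
    have h2 : (aeval ξ (A i) : ℝ) = 0 := by exact_mod_cast h0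
    rw [h2] at h1
    exact lt_irrefl _ h1
  have hreal : ∀ x ∈ K, (starRingEnd ℂ) x = x := by
    intro x hx
    induction hx using IntermediateField.adjoin_induction with
    | mem x hx =>
      obtain ⟨s, rfl⟩ := hx
      exact Complex.conj_ofReal _
    | algebraMap q => simp
    | add x y _ _ hx hy => rw [map_add, hx, hy]
    | inv x _ hx => rw [map_inv₀, hx]
    | mul x y _ _ hx hy => rw [map_mul, hx, hy]
  have hδK : δ ∉ K := by
    intro h0
    have h1 := him i₀
    rw [hab i₀] at h1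
    have h2 := hreal _ (add_mem (ha' i₀) (mul_mem (hb' i₀) h0))
    have h3 := Complex.conj_eq_iff_im.1 h2
    rw [h3] at h1
    exact lt_irrefl _ h1
  have hevK : ∀ P : MvPolynomial (Fin m) ℤ, aeval (cx ξ) P ∈ K := fun P => by
    have h1 : aeval (cx ξ) P ∈ Algebra.adjoin ℤ (Set.range (cx ξ)) := by
      rw [Algebra.adjoin_range_eq_range_aeval]
      exact ⟨P, rfl⟩
    have h2 : Algebra.adjoin ℤ (Set.range (cx ξ)) ≤ (K.toSubalgebra.restrictScalars ℤ) := by
      rw [Algebra.adjoin_le_iff]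
      exact subset_adjoin ℚ _
    exact h2 h1
  have hb0 : ∀ i, b i ≠ 0 := by
    intro i h0
    have h1 := him i
    rw [hab i, h0, zero_mul, add_zero] at h1
    have h3 := Complex.conj_eq_iff_im.1 (hreal _ (ha' i))
    rw [h3] at h1
    exact lt_irrefl _ h1
  have hdisc : ∀ i, 4 * aeval (cx ξ) (A i) * aeval (cx ξ) (C i) - aeval (cx ξ) (B i) ^ 2 =
      -(2 * aeval (cx ξ) (A i) * b i) ^ 2 * δ ^ 2 := by
    intro i
    have h1 := heq i
    rw [hab i] at h1
    set A' := (aeval (cx ξ) (A i) : ℂ) with hA'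
    set B' := (aeval (cx ξ) (B i) : ℂ) with hB'
    set C' := (aeval (cx ξ) (C i) : ℂ) with hC'
    have mA : A' ∈ K := hevK _
    have mB : B' ∈ K := hevK _
    have mC : C' ∈ K := hevK _
    -- `(2 A a + B) b δ + (A a ^ 2 + A b ^ 2 δ ^ 2 + B a + C) = 0`
    have h2 : (2 * A' * a i + B') * b i * δ = -(A' * a i ^ 2 + A' * b i ^ 2 * δ ^ 2 + B' * a i + C') := by
      linear_combination h1
    have h3 : (2 * A' * a i + B') = 0 := by
      by_contra h4
      apply hδK
      have h5 : δ = (-(A' * a i ^ 2 + A' * b i ^ 2 * δ ^ 2 + B' * a i + C')) / ((2 * A' * a i + B') * b i) := by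
        rw [eq_div_iff (mul_ne_zero h4 (hb0 i)), ← h2]
        ring
      rw [h5]
      exact div_mem (neg_mem (add_mem (add_mem (add_mem (mul_mem mA (pow_mem (ha' i) 2))
        (mul_mem (mul_mem mA (pow_mem (hb' i) 2)) hδ')) (mul_mem mB (ha' i))) mC))
        (mul_mem (add_mem (mul_mem (mul_mem (ofNat_mem _ 2) mA) (ha' i)) mB) (hb' i))
    have h4 : A' * a i ^ 2 + A' * b i ^ 2 * δ ^ 2 + B' * a i + C' = 0 := by
      rw [h3, zero_mul, zero_mul] at h2
      linear_combination h2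
    have h5 : B' = -(2 * A' * a i) := by linear_combination h3
    have h6 : C' = -(A' * a i ^ 2 + A' * b i ^ 2 * δ ^ 2 + B' * a i) := by linear_combination h4
    rw [h6, h5]
    ring
  have hSq : Sqr A B C ξ i₀ := by
    intro i
    have hr : (2 * aeval (cx ξ) (A i₀) * b i₀) * (2 * aeval (cx ξ) (A i) * b i) * δ ^ 2 ∈ K :=
      mul_mem (mul_mem (mul_mem (mul_mem (ofNat_mem _ 2) (hevK _)) (hb' i₀))
        (mul_mem (mul_mem (ofNat_mem _ 2) (hevK _)) (hb' i))) hδ'
    obtain ⟨P, Q, hQ0, hPQ⟩ := frac hr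
    refine ⟨P, Q, hQ0, ?_⟩
    rw [← sub_eq_zero]
    apply Hc.no_rel hξ
    rw [map_sub, map_mul, map_mul, map_sub, map_sub, map_mul, map_mul, map_mul, map_mul, map_pow, map_pow, map_pow,
      map_pow, map_ofNat, hdisc i, hdisc i₀, ← hPQ]
    ring
  intro F hF
  refine core2R hξ hQ i₀ hSq hcm hine e F ?_
  rw [← hF]
  congr 2
  congr 1
  funext k
  have hv := hQ.val
  have hk : ∀ k : Fin n × Fin 3, Yr A B C i₀ k (cx ξ) = Nr z i₀ k := by
    rintro ⟨i, l⟩
    have hself := hQ.ev.self_of_nhds i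
    have hL := Lf_real (A i) (B i) (C i) (hpos i) hself.2.1
    rw [hv i] at hL
    fin_cases l
    · change jf (Tf (A i) (B i) (C i) (cx ξ)) = jf (z i)
      rw [hv i]
    · change VV (Lf (A i) (B i) (C i) (cx ξ)) (jf (Tf (A i) (B i) (C i) (cx ξ))) (deriv jf (Tf (A i) (B i) (C i) (cx ξ)))
        (deriv (deriv jf) (Tf (A i) (B i) (C i) (cx ξ))) = Vn (z i)
      rw [hv i, hL]
      rfl
    · change dd (Tf (A i) (B i) (C i) (cx ξ)) / dd (Tf (A i₀) (B i₀) (C i₀) (cx ξ)) = dd (z i) / dd (z i₀)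
      rw [hv i, hv i₀]
  exact hk _

end Pool.Agent.H73.MR
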