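import Pool.Agent.H73.ML.CmT

/-!
# The functions `Δ((a w + b) / d) / Δ(w)`
-/

set_option autoImplicit false

open UpperHalfPlane ModularForm EisensteinSeries MatrixGroups FixedDetMatrices Matrix
open H294ZP H294ZP.TF676 H294ZP.TA2
open Pool.Agent.H73.ML

noncomputable section

namespace Pool.Agent.H73.MR

variable {N : ℕ}

/-- the function attached to a representative -/
def dl (hN : 0 < N) (k : reps (N : ℤ)) (w : ℍ) : ℂ :=
  ((k.1.1 0 0 : ℤ) : ℂ) ^ 12 * discriminant (hf hN k w) / discriminant w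

/-- the representative of a class -/
theorem keyD (hN : 0 < N) (A : FixedDetMatrix (Fin 2) ℤ (N : ℤ)) (τ w : ℍ)
    (hw : (w : ℂ) * ((A.1 1 0 : ℤ) * τ + (A.1 1 1 : ℤ)) = (A.1 0 0 : ℤ) * τ + (A.1 0 1 : ℤ)) :
    (N : ℂ) ^ 12 * discriminant w = (((red hN A).1.1 0 0 : ℤ) : ℂ) ^ 12 * discriminant (hf hN (red hN A) τ) *
      ((A.1 1 0 : ℤ) * (τ : ℂ) + (A.1 1 1 : ℤ)) ^ 12 := by
  obtain ⟨g, hg⟩ := reduce_orbit A
  have hv := hf_mul hN (red hN A) τ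
  have h10 : (red hN A).1.1 1 0 = 0 := (reps_pos hN (red hN A)).2.2.2.2.2
  have had := ad_eq hN (red hN A)
  have hdd := d_ne hN (red hN A)
  have hR : (red hN A).1 = g • A := hg
  set v := hf hN (red hN A) τ with hvdef
  have e00 := smul_entries g A 0 0
  have e01 := smul_entries g A 0 1
  have e10 := smul_entries g A 1 0
  have e11 := smul_entries g A 1 1
  have e11' : (((red hN A).1.1 1 1 : ℤ) : ℂ) = (g.1 1 0 : ℤ) * (A.1 0 1 : ℤ) + (g.1 1 1 : ℤ) * (A.1 1 1 : ℤ) := by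
    rw [hR, e11]
    push_cast
    ring
  rw [hR] at h10
  rw [hR, e00, e01, ← hR] at hv
  rw [e10] at h10
  have h10' : ((g.1 1 0 : ℤ) : ℂ) * (A.1 0 0 : ℤ) + (g.1 1 1 : ℤ) * (A.1 1 0 : ℤ) = 0 := by
    exact_mod_cast h10
  push_cast at hv
  rw [e11'] at hv
  set m : ℂ := (A.1 1 0 : ℤ) * τ + (A.1 1 1 : ℤ) with hm
  set n : ℂ := (A.1 0 0 : ℤ) * τ + (A.1 0 1 : ℤ) with hn
  have hdet : ((A.1 0 0 : ℤ) : ℂ) * (A.1 1 1 : ℤ) - (A.1 0 1 : ℤ) * (A.1 1 0 : ℤ) = N := by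
    exact_mod_cast det_eq A
  have hm0 : m ≠ 0 := by
    intro h0
    rw [h0, mul_zero] at hw
    have h2 : ((A.1 0 0 : ℤ) : ℂ) * m - (A.1 1 0 : ℤ) * n = N := by
      rw [hm, hn, ← hdet]; ring
    rw [h0, ← hw] at h2
    simp only [mul_zero, sub_zero] at h2
    exact hN.ne' (by exact_mod_cast h2.symm)
  have h4 : ((g.1 1 0 : ℤ) : ℂ) * n + (g.1 1 1 : ℤ) * m = (((red hN A).1.1 1 1 : ℤ) : ℂ) := by
    rw [hm, hn, e11']
    linear_combination (τ : ℂ) * h10'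
  have h3 : (v : ℂ) * ((g.1 1 0 : ℤ) * n + (g.1 1 1 : ℤ) * m) =
      (g.1 0 0 : ℤ) * n + (g.1 0 1 : ℤ) * m := by
    rw [h4, e11', hv, hm, hn]
    ring
  have h5 : (v : ℂ) * ((g.1 1 0 : ℤ) * w + (g.1 1 1 : ℤ)) = (g.1 0 0 : ℤ) * w + (g.1 0 1 : ℤ) := by
    apply mul_right_cancel₀ hm0
    calc (v : ℂ) * ((g.1 1 0 : ℤ) * w + (g.1 1 1 : ℤ)) * m
        = (v : ℂ) * ((g.1 1 0 : ℤ) * (w * m) + (g.1 1 1 : ℤ) * m) := by ring
      _ = (g.1 0 0 : ℤ) * (w * m) + (g.1 0 1 : ℤ) * m := by rw [hw, h3]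
      _ = ((g.1 0 0 : ℤ) * w + (g.1 0 1 : ℤ)) * m := by ring
  have hdn : dn g w * m = (((red hN A).1.1 1 1 : ℤ) : ℂ) := by
    rw [← h4, dn, ← hw]
    ring
  have hvg : v = g • w := by
    apply UpperHalfPlane.ext
    rw [coe_specialLinearGroup_apply]
    have hne : ((g.1 1 0 : ℤ) : ℂ) * w + (g.1 1 1 : ℤ) ≠ 0 := dn_ne g w
    have h6 : (v : ℂ) = ((g.1 0 0 : ℤ) * w + (g.1 0 1 : ℤ)) / ((g.1 1 0 : ℤ) * w + (g.1 1 1 : ℤ)) := by
      rw [eq_div_iff hne]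
      exact h5
    rw [h6]
    simp
  rw [hvg, disc_smul, ← had]
  rw [← hdn]
  ring

/-- the functions are permuted -/
theorem dl_perm (hN : 0 < N) (γ : SL(2, ℤ)) : ∃ σ : Equiv.Perm (reps (N : ℤ)), ∀ k τ,
    dl hN k (γ • τ) = dl hN (σ k) τ := by
  classical
  have hinj : Function.Injective (fun k : reps (N : ℤ) => red hN (rmul k.1 γ)) := by
    intro k k' hkk
    simp only at hkk
    have h1 : reduce (rmul k.1 γ) = reduce (rmul k'.1 γ) := congrArg Subtype.val hkk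
    obtain ⟨g, hg⟩ := reduce_orbit (rmul k.1 γ)
    obtain ⟨g', hg'⟩ := reduce_orbit (rmul k'.1 γ)
    rw [hg, hg', smul_rmul, smul_rmul] at h1
    have h2 := rmul_inj γ h1
    have h3 : k'.1 = (g'⁻¹ * g) • k.1 := by
      rw [mul_smul, h2, inv_smul_smul]
    exact Subtype.ext (reps_unique (by exact_mod_cast hN) k.2 k'.2 _ h3)
  refine ⟨Equiv.ofBijective _ (Finite.injective_iff_bijective.1 hinj), fun k τ => ?_⟩
  show dl hN k (γ • τ) = dl hN (red hN (rmul k.1 γ)) τ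
  set w := γ • τ with hwd
  have h1 := hf_mul hN k w
  have h10 : k.1.1 1 0 = 0 := (reps_pos hN k).2.2.2.2.2
  have e10 : (rmul k.1 γ).1 1 0 = k.1.1 1 1 * γ.1 1 0 := by
    show (k.1.1 * γ.1) 1 0 = _
    simp [Matrix.mul_apply, Fin.sum_univ_two, h10]
  have e11 : (rmul k.1 γ).1 1 1 = k.1.1 1 1 * γ.1 1 1 := by
    show (k.1.1 * γ.1) 1 1 = _
    simp [Matrix.mul_apply, Fin.sum_univ_two, h10]
  have e00 : (rmul k.1 γ).1 0 0 = k.1.1 0 0 * γ.1 0 0 + k.1.1 0 1 * γ.1 1 0 := by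
    show (k.1.1 * γ.1) 0 0 = _
    simp [Matrix.mul_apply, Fin.sum_univ_two]
  have e01 : (rmul k.1 γ).1 0 1 = k.1.1 0 0 * γ.1 0 1 + k.1.1 0 1 * γ.1 1 1 := by
    show (k.1.1 * γ.1) 0 1 = _
    simp [Matrix.mul_apply, Fin.sum_univ_two]
  have hw : (w : ℂ) * ((γ.1 1 0 : ℤ) * τ + (γ.1 1 1 : ℤ)) = (γ.1 0 0 : ℤ) * τ + (γ.1 0 1 : ℤ) := by
    have h5 := dn_ne γ τ
    rw [hwd, coe_specialLinearGroup_apply]
    have h6 : ((γ.1 1 0 : ℤ) : ℂ) * τ + (γ.1 1 1 : ℤ) ≠ 0 := h5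
    simp only [algebraMap_int_eq, eq_intCast]
    exact div_mul_cancel₀ _ h6
  have hk2 := keyD hN (rmul k.1 γ) τ (hf hN k w) (by
    rw [e10, e11, e00, e01]
    push_cast
    linear_combination ((γ.1 1 0 : ℤ) * (τ : ℂ) + (γ.1 1 1 : ℤ)) * h1 + ((k.1.1 0 0 : ℤ) : ℂ) * hw)
  have had := ad_eq hN k
  have hd := d_ne hN k
  have hden : ((rmul k.1 γ).1 1 0 : ℤ) * (τ : ℂ) + ((rmul k.1 γ).1 1 1 : ℤ) = (k.1.1 1 1 : ℤ) * dn γ τ := by
    rw [e10, e11, dn]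
    push_cast
    ring
  rw [hden] at hk2
  have hdn := dn_ne γ τ
  have h7 : ((k.1.1 0 0 : ℤ) : ℂ) ^ 12 * discriminant (hf hN k w) =
      (((red hN (rmul k.1 γ)).1.1 0 0 : ℤ) : ℂ) ^ 12 * discriminant (hf hN (red hN (rmul k.1 γ)) τ) * dn γ τ ^ 12 := by
    apply mul_right_cancel₀ (pow_ne_zero 12 hd)
    calc ((k.1.1 0 0 : ℤ) : ℂ) ^ 12 * discriminant (hf hN k w) * ((k.1.1 1 1 : ℤ) : ℂ) ^ 12
        = (((k.1.1 0 0 : ℤ) : ℂ) * (k.1.1 1 1 : ℤ)) ^ 12 * discriminant (hf hN k w) := by ring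
      _ = (N : ℂ) ^ 12 * discriminant (hf hN k w) := by rw [had]
      _ = _ := by rw [hk2]; ring
  have h9 := discriminant_ne_zero τ
  rw [dl, dl, h7, hwd, disc_smul]
  field_simp

/-- the value at `(a τ + b) / d` -/
theorem dl_tri (hN : 0 < N) {a d : ℕ} (had : a * d = N) (b : ℤ) (τ w : ℍ) (hw : (w : ℂ) * d = a * τ + b) :
    ∃ k : reps (N : ℤ), dl hN k τ = (a : ℂ) ^ 12 * (discriminant w / discriminant τ) := by
  set A : FixedDetMatrix (Fin 2) ℤ (N : ℤ) :=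
    ⟨!![(a : ℤ), b; 0, (d : ℤ)], by rw [Matrix.det_fin_two_of]; push_cast [← had]; ring⟩ with hA
  have h2 := keyD hN A τ w (by simpa [hA] using hw)
  refine ⟨red hN A, ?_⟩
  have e1 : ((A.1 1 0 : ℤ) : ℂ) * (τ : ℂ) + (A.1 1 1 : ℤ) = d := by simp [hA]
  rw [e1] at h2
  have hNC : (N : ℂ) = a * d := by rw [← had]; push_cast; ring
  have hd0 : (d : ℂ) ≠ 0 := by
    have : d ≠ 0 := by
      rintro rfl
      rw [mul_zero] at had
      omega
    exact_mod_cast this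
  have h9 := discriminant_ne_zero τ
  have h3 : (((red hN A).1.1 0 0 : ℤ) : ℂ) ^ 12 * discriminant (hf hN (red hN A) τ) = (a : ℂ) ^ 12 * discriminant w := by
    apply mul_right_cancel₀ (pow_ne_zero 12 hd0)
    rw [← h2, hNC]
    ring
  rw [dl, h3, mul_div_assoc]

/-! ### Expansions -/

/-- the coefficients of `Δ` -/
def cD (n : ℕ) : ℤ := H294ZP.TA2.D.coeff n

/-- the coefficients of `q / Δ` -/
def cV (n : ℕ) : ℤ := V.coeff n

theorem cD_sum (τ : ℍ) : HasSum (fun n => (cD n : ℂ) * qq 1 τ ^ n) (discriminant τ) := by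
  have h := R_D τ
  exact h

theorem cV_sum (τ : ℍ) : HasSum (fun n => (cV n : ℂ) * qq 1 τ ^ n) (qq 1 τ * (1 / discriminant τ)) := by
  have h := R_V τ
  rw [mul_one_div]
  exact h

theorem cV_zero : cV 0 = 1 := by
  have hV : PowerSeries.constantCoeff V = 1 := by
    have := congrArg PowerSeries.constantCoeff UV
    rw [map_mul, U0, one_mul, map_one] at this
    exact this
  rw [cV, PowerSeries.coeff_zero_eq_constantCoeff_apply, hV]

theorem lau_D : Lau 1 0 0 (fun τ => discriminant τ) := by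
  refine ⟨fun n => (cD n : ℂ), by simp [cD, D0], fun n => int_int _, fun τ => ?_⟩
  rw [pow_zero, one_mul]
  exact cD_sum τ

theorem lau_iD : Lau 1 1 1 (fun τ => 1 / discriminant τ) := by
  refine ⟨fun n => (cV n : ℂ), by simp [cV_zero], fun n => int_int _, fun τ => ?_⟩
  rw [pow_one]
  exact cV_sum τ

theorem hol_D : Hol (fun τ => discriminant τ) := disc_mdiff

theorem hol_iD : Hol (fun τ => 1 / discriminant τ) := by
  unfold Hol
  have : ((fun τ => 1 / discriminant τ) ∘ ofComplex) = fun z => 1 / ((fun τ : ℍ => discriminant τ) ∘ ofComplex) z := by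
    ext z; rfl
  rw [this]
  exact (differentiableOn_const (c := (1 : ℂ))).div disc_mdiff (fun z _ => discriminant_ne_zero _)

open Pool.Agent.R870.NY in
/-- the expansion -/
theorem lb_dl (hN : 0 < N) (k : reps (N : ℤ)) : LB N N (dl hN k) := by
  obtain ⟨ha, hd, had, ea, ed, -⟩ := reps_pos hN k
  have hh : ∀ τ, (hf hN k τ : ℂ) * ((k.1.1 1 1).toNat : ℕ) = ((k.1.1 0 0).toNat : ℕ) * τ + (k.1.1 0 1 : ℤ) :=
    fun τ => hk_mul _ _ _ ha hd τ
  have l1 := lau_comp lau_D _ _ _ ha hd (hf hN k) hh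
  have o1 := hol_comp hol_D _ _ _ ha hd (hf hN k) hh
  rw [had] at l1
  have l3 := H294ZP.H610.lau_reindex hN lau_iD
  rw [mul_one] at l3
  have b1 : LB N 0 (fun τ => discriminant (hf hN k τ)) := ⟨⟨_, l1⟩, o1⟩
  have b3 : LB N N (fun τ => 1 / discriminant τ) := ⟨⟨_, l3⟩, hol_iD⟩
  have b4 := LB.mul hN (LB.const hN (A := ((k.1.1 0 0 : ℤ) : ℂ) ^ 12) ((int_int _).pow 12)) b1
  have b6 := LB.mul hN b4 b3
  rw [zero_add, zero_add] at b6
  convert b6 using 2 with τ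
  rw [dl, mul_one_div]

end Pool.Agent.H73.MR
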