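import Pool.Agent.H73.ML.Fin
import Pool.Agent.H73.MR.CoX

/-!
# The theorem for the points of one quadratic extension of `ℚ(S)`
-/

set_option autoImplicit false

open Filter Topology MvPolynomial IntermediateField

noncomputable section

namespace Pool.Agent.H73.MR

open Pool.Agent.NH23.Core
open Pool.Agent.NH23.Qua
open Pool.Agent.Y776 (jf)
open Pool.Agent.H73.ML

variable {S : Set ℝ} {n : ℕ} {z : Fin n → ℂ}

/-- the ratio is in the closure of the jets -/
theorem dd_mem {w : Fin n × Fin 3 → ℂ} (hw : w = fun k => (![jf (z k.1), deriv jf (z k.1), deriv (deriv jf) (z k.1)] :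
    Fin 3 → ℂ) k.2) (him : ∀ i, 0 < (z i).im) (hd : ∀ i, deriv jf (z i) ≠ 0) (i k : Fin n) :
    dd (z i) / dd (z k) ∈ (AlgebraicIndependent.matroid (KS S) ℂ).closure (Set.range w) := by
  rw [AlgebraicIndependent.matroid_closure_eq]
  set A := Algebra.adjoin (KS S) (Set.range w) with hA
  have mA : ∀ k, IsAlgebraic A (w k) := fun k =>
    isAlgebraic_algebraMap (⟨w k, Algebra.subset_adjoin ⟨k, rfl⟩⟩ : A)
  have m0 : ∀ i, IsAlgebraic A (jf (z i)) := by
    intro i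
    have := mA (i, 0)
    rw [hw] at this
    exact this
  have m1 : ∀ i, IsAlgebraic A (deriv jf (z i)) := by
    intro i
    have := mA (i, 1)
    rw [hw] at this
    exact this
  have mn : ∀ q : ℕ, IsAlgebraic A (q : ℂ) := fun q => by
    have := isAlgebraic_algebraMap (R := A) (A := ℂ) (q : A)
    simpa using this
  have m1728 := mn 1728
  push_cast at m1728
  have hJJ : ∀ i, jf (z i) ≠ 0 ∧ jf (z i) - 1728 ≠ 0 := by
    intro i
    have h1 := hd i
    rw [dJ_djf (him i)] at h1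
    rw [J_jf (him i)]
    exact JJ_ne (him i) h1
  change IsAlgebraic A (dd (z i) / dd (z k))
  have h1 := dj_six (him i)
  have h2 := dj_six (him k)
  obtain ⟨a0, a1⟩ := hJJ i
  obtain ⟨b0, b1⟩ := hJJ k
  have h3 : dd (z i) / dd (z k) = deriv jf (z i) ^ 6 * (jf (z k) ^ 4 * (jf (z k) - 1728) ^ 3) *
      (deriv jf (z k) ^ 6 * (jf (z i) ^ 4 * (jf (z i) - 1728) ^ 3))⁻¹ := by
    have h4 := dd_ne (him k)
    have h5 := tpi_ne
    rw [h1, h2]
    field_simp
  rw [h3]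
  exact ((((m1 i).pow 6).mul (((m0 k).pow 4).mul (((m0 k).sub m1728).pow 3)))).mul
    (((m1 k).pow 6).mul (((m0 i).pow 4).mul (((m0 i).sub m1728).pow 3))).inv

/-- the indices -/
def ixE (n : ℕ) : (Fin (n + 1) ⊕ Fin (n + 1)) ⊕ Fin n → Ix (0 : Fin (n + 1)) :=
  Sum.elim (Sum.elim (fun i => ⟨(i, 0), by simp⟩) (fun i => ⟨(i, 1), by simp⟩))
    (fun i => ⟨(i.succ, 2), by
      intro h
      exact Fin.succ_ne_zero i (congrArg Prod.fst h)⟩)

theorem ixE_inj (n : ℕ) : Function.Injective (ixE n) := by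
  rintro ((i | i) | i) ((k | k) | k) h <;> simp [ixE] at h ⊢ <;> exact h

theorem card_Ix {n : ℕ} (i₀ : Fin n) : Fintype.card (Ix i₀) = 3 * n - 1 := by
  rw [Fintype.card_subtype_compl (fun k : Fin n × Fin 3 => k = (i₀, 2))]
  rw [Fintype.card_prod, Fintype.card_fin, Fintype.card_fin, mul_comm]
  congr 1

/-- **everything over the field** -/
theorem main {n : ℕ} {z : Fin (n + 1) → ℂ} (hS : Hier S) (him : ∀ i, 0 < (z i).im) {δ : ℂ} (hδ : δ ^ 2 ∈ KS S)
    (hz : ∀ i, ∃ a b : ℂ, a ∈ KS S ∧ b ∈ KS S ∧ z i = a + b * δ)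
    (hcm : ∀ i, ∀ a b c : ℤ, (a : ℂ) * z i ^ 2 + b * z i + c = 0 → a = 0)
    (hine : ∀ i k, i ≠ k → ∀ a b c d : ℚ, 0 < a * d - b * c → z k * (c * z i + d) ≠ a * z i + b) :
    AlgebraicIndependent (KS S) (Sum.elim (Sum.elim (fun i => jf (z i)) (fun i => Vn (z i)))
      (fun i : Fin n => dd (z i.succ) / dd (z 0))) ∧
    (∃ f : Fin (3 * n + 2) → Fin (n + 1) × Fin 3, AlgebraicIndependent (KS S)
      (fun k => (![jf (z (f k).1), deriv jf (z (f k).1), deriv (deriv jf) (z (f k).1)] : Fin 3 → ℂ) (f k).2)) ∧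
    (∀ i, IsAlgebraic (KS S) (z i)) ∧ ∀ i, Transcendental ℚ (z i) := by
  have hquad : ∀ i, ∃ a b c : ℂ, a ∈ KS S ∧ b ∈ KS S ∧ c ∈ KS S ∧ (a ≠ 0 ∨ b ≠ 0 ∨ c ≠ 0) ∧
      a * z i ^ 2 + b * z i + c = 0 := by
    intro i
    obtain ⟨a, b, ha, hb, hab⟩ := hz i
    exact ⟨1, -2 * a, a ^ 2 - b ^ 2 * δ ^ 2, one_mem _, mul_mem (neg_mem (ofNat_mem _ 2)) ha,
      sub_mem (pow_mem ha 2) (mul_mem (pow_mem hb 2) hδ), Or.inl one_ne_zero, by rw [hab]; ring⟩
  have hd : ∀ i, deriv jf (z i) ≠ 0 := fun i => djf_ne (him i) (hcm i)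
  have hcard : Fintype.card (Ix (0 : Fin (n + 1))) = 3 * n + 2 := by
    rw [card_Ix]
    omega
  set e : Fin (3 * n + 2) ≃ Ix (0 : Fin (n + 1)) := (Fintype.equivFinOfCardEq hcard).symm with he
  have h1 := mainR hS him 0 hδ hz hcm hine e
  refine ⟨?_, ?_, fun i => ?_, fun i => tr_pt hS (him i) (hquad i) (hcm i)⟩
  · have h2 := h1.comp (fun s => e.symm (ixE n s)) (e.symm.injective.comp (ixE_inj n))
    convert h2 using 1
    funext s
    simp only [Function.comp_apply, Equiv.apply_symm_apply]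
    rcases s with (i | i) | i
    · rfl
    · rfl
    · rfl
  · refine exists_sub (w := fun k : Fin (n + 1) × Fin 3 =>
      (![jf (z k.1), deriv jf (z k.1), deriv (deriv jf) (z k.1)] : Fin 3 → ℂ) k.2) h1 ?_
    intro k
    obtain ⟨g1, g2⟩ := Vn_mem (S := S) rfl him hquad (e k).1.1
    have g3 := dd_mem (S := S) rfl him hd (e k).1.1 0
    generalize (e k).1 = p at g1 g2 g3 ⊢
    obtain ⟨i, l⟩ := p
    fin_cases l
    · exact g1
    · exact g2
    · exact g3
  · obtain ⟨a, b, c, ha, hb, hc, hne, h⟩ := hquad i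
    exact quad_alg ha hb hc hne h

end Pool.Agent.H73.MR
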