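import Pool.Agent.H73.ML.CoX
import Pool.Agent.H73.MR.CmD

/-!
# Functional independence with `Δ(τ_i) / Δ(τ_0)`
-/

set_option autoImplicit false

open Filter Topology MvPolynomial

noncomputable section

namespace Pool.Agent.H73.MR

open Pool.Agent.Y685 Pool.Agent.Y776 Pool.Agent.Y776.AxJ
open Pool.Agent.Y776.Fam (AlgOver)
open Pool.Agent.Y776.Cv (FInd)
open Pool.Agent.NH23.Pair Pool.Agent.NH23.Tup
open Pool.Agent.H73.ML
open Pool.Agent.TH21.MS (E4 E6 E4_eq E6_eq disc_ne)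
open Pool.Agent.Q280.MD (E4_an E6_an)

/-- the function `Δ` -/
def dd (τ : ℂ) : ℂ := (E4 τ ^ 3 - E6 τ ^ 2) / 1728

theorem dd_ne {τ : ℂ} (hτ : 0 < τ.im) : dd τ ≠ 0 := by
  have h0 : E4 τ ^ 3 - E6 τ ^ 2 ≠ 0 := disc_ne ⟨τ, hτ⟩
  exact div_ne_zero h0 (by norm_num)

theorem dd_eq {τ : ℂ} (hτ : 0 < τ.im) : dd τ = ModularForm.discriminant ⟨τ, hτ⟩ := by
  rw [dd, ModularForm.discriminant_eq_E₄_cube_sub_E₆_sq]
  have h4 := E4_eq ⟨τ, hτ⟩
  have h6 := E6_eq ⟨τ, hτ⟩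
  simp only at h4 h6
  rw [h4, h6]

theorem an_dd : AnalyticOnNhd ℂ dd {t : ℂ | 0 < t.im} := by
  intro t ht
  exact (((E4_an ht).pow 3).sub ((E6_an ht).pow 2)).div_const

/-- **`j' ^ 6 = (2 π i) ^ 6 Δ j ^ 4 (j - 1728) ^ 3`** -/
theorem dj_six {τ : ℂ} (hτ : 0 < τ.im) : deriv jf τ ^ 6 = tpi ^ 6 * (dd τ * (jf τ ^ 4 * (jf τ - 1728) ^ 3)) := by
  have h0 : E4 τ ^ 3 - E6 τ ^ 2 ≠ 0 := disc_ne ⟨τ, hτ⟩
  rw [dJ_djf hτ, J_jf hτ, dJ hτ, J_sub hτ, J_eq, dd]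
  field_simp

/-- the ratio -/
theorem dj_ratio {τ σ : ℂ} (hτ : 0 < τ.im) (hσ : 0 < σ.im) (h0 : jf σ ≠ 0) (h1 : jf σ - 1728 ≠ 0) :
    deriv jf τ ^ 6 = deriv jf σ ^ 6 * (dd τ / dd σ) * ((jf τ / jf σ) ^ 4 * ((jf τ - 1728) / (jf σ - 1728)) ^ 3) := by
  have h2 := dd_ne hσ
  rw [dj_six hτ, dj_six hσ]
  field_simp

theorem root_clo {C : IntermediateField ℚ ℂ} {S : Set ℂ} {x : ℂ} {k : ℕ} (hk : k ≠ 0) (h : x ^ k ∈ clo C S) : x ∈ clo C S := by
  intro D hD hS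
  by_cases hx : x = 0
  · rw [hx, map_zero]
  have h1 := h D hD hS
  rw [Derivation.leibniz_pow, smul_eq_mul, nsmul_eq_mul] at h1
  have h2 : ((k : ℂ) * x ^ (k - 1)) ≠ 0 := mul_ne_zero (by exact_mod_cast hk) (pow_ne_zero _ hx)
  exact (mul_eq_zero.1 (by rw [← h1]; ring : ((k : ℂ) * x ^ (k - 1)) * D x = 0)).resolve_left h2

variable {U : Set ℂ} {n : ℕ} {τ lam : Fin n → ℂ → ℂ}

/-- the functions -/
def yr (τ lam : Fin n → ℂ → ℂ) (i₀ : Fin n) (k : Fin n × Fin 3) (z : ℂ) : ℂ :=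
  (![jf (τ k.1 z), VV (lam k.1 z) (jf (τ k.1 z)) (deriv jf (τ k.1 z)) (deriv (deriv jf) (τ k.1 z)),
    if k.1 = i₀ then deriv jf (τ i₀ z) else dd (τ k.1 z) / dd (τ i₀ z)] : Fin 3 → ℂ) k.2

theorem yr_an (h : Tpl U τ) (hl : ∀ i, AnalyticOnNhd ℂ (lam i) U) (hd : ∀ i, ∀ z ∈ U, deriv jf (τ i z) ≠ 0)
    (i₀ : Fin n) (k : Fin n × Fin 3) : AnalyticOnNhd ℂ (yr τ lam i₀ k) U := by
  rcases k with ⟨i, m⟩
  intro z hz
  have key : ∀ i, ∀ g : ℂ → ℂ, AnalyticOnNhd ℂ g {t : ℂ | 0 < t.im} → AnalyticAt ℂ (fun z => g (τ i z)) z :=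
    fun i g hg => AnalyticAt.fun_comp (g := g) (f := τ i) (hg _ (h.im i z hz)) (h.an i z hz)
  have k0 := key i _ an_j
  have k1 := key i _ an_j.deriv
  have k2 := key i _ an_j.deriv.deriv
  fin_cases m
  · exact k0
  · exact ((analyticAt_const.mul k0).sub analyticAt_const).sub ((((analyticAt_const.mul k0).mul
      (k0.sub analyticAt_const)).mul (k2.sub ((hl i z hz).mul k1))).div (k1.pow 2) (pow_ne_zero 2 (hd i z hz)))
  · by_cases hi : i = i₀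
    · have e : yr τ lam i₀ (i, 2) = fun z => deriv jf (τ i₀ z) := by
        funext z
        simp [yr, hi]
      change AnalyticAt ℂ (yr τ lam i₀ (i, 2)) z
      rw [e]
      exact key i₀ _ an_j.deriv
    · have e : yr τ lam i₀ (i, 2) = fun z => dd (τ i z) / dd (τ i₀ z) := by
        funext z
        simp [yr, hi]
      change AnalyticAt ℂ (yr τ lam i₀ (i, 2)) z
      rw [e]
      exact (key i _ an_dd).div (key i₀ _ an_dd) (dd_ne (h.im i₀ z hz))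

/-- **all the functions are independent** -/
theorem locR (h : Tpl U τ) (i₀ : Fin n) (hl : ∀ i, AnalyticOnNhd ℂ (lam i) U) (hla : ∀ i, Alg U (lam i))
    (hd : ∀ i, ∀ z ∈ U, deriv jf (τ i z) ≠ 0) (h0 : ∀ i, ∀ z ∈ U, jf (τ i z) ≠ 0)
    (h1 : ∀ i, ∀ z ∈ U, jf (τ i z) - 1728 ≠ 0) : ∀ t ∈ U, Pool.Agent.Y124.LocInd (yr τ lam i₀) t := by
  choose G hG0 hG using h.alg
  choose L hL0 hL using hla
  refine loc_all h.fmj (Fin.pos i₀) (y := yr τ lam i₀) (yr_an h hl hd i₀) (by simp [mul_comm])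
    (G := (⋃ k, ((G k).coeffs : Set ℂ)) ∪ ⋃ k, ((L k).coeffs : Set ℂ))
    ((Set.countable_iUnion fun _ => Finset.countable_toSet _).union
      (Set.countable_iUnion fun _ => Finset.countable_toSet _)) ?_
  intro F hF z hz htr k
  set K := clo F (insert z (Set.range fun k => yr τ lam i₀ k z)) with hK
  have mz : z ∈ K := subset_clo (Or.inl rfl)
  have mO : ∀ k, yr τ lam i₀ k z ∈ K := fun k => subset_clo (Or.inr ⟨k, rfl⟩)
  have mn : ∀ n : ℕ, (n : ℂ) ∈ K := fun n => natCast_mem _ n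
  have m6 := mn 6
  have m7 := mn 7
  have m6912 := mn 6912
  have m1728 := mn 1728
  push_cast at m6 m7 m6912 m1728
  rcases k with ⟨i, m⟩ | i | i
  · have mj : ∀ i, jf (τ i z) ∈ K := fun i => mO (i, 0)
    have m0 : jf (τ i z) ∈ K := mj i
    have mV : VV (lam i z) (jf (τ i z)) (deriv jf (τ i z)) (deriv (deriv jf) (τ i z)) ∈ K := mO (i, 1)
    have md0 : deriv jf (τ i₀ z) ∈ K := by
      have := mO (i₀, 2)
      simpa [yr] using this
    have m1 : deriv jf (τ i z) ∈ K := by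
      by_cases hi : i = i₀
      · rw [hi]
        exact md0
      · have hr : dd (τ i z) / dd (τ i₀ z) ∈ K := by
          have := mO (i, 2)
          simpa [yr, hi] using this
        refine root_clo (k := 6) (by norm_num) ?_
        change deriv jf (τ i z) ^ 6 ∈ K
        rw [dj_ratio (h.im i z hz) (h.im i₀ z hz) (h0 i₀ z hz) (h1 i₀ z hz)]
        exact mul_mem (mul_mem (pow_mem md0 6) hr) (mul_mem (pow_mem (div_mem (mj i) (mj i₀)) 4)
          (pow_mem (div_mem (sub_mem (mj i) m1728) (sub_mem (mj i₀) m1728)) 3))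
    have mt : τ i z ∈ K := by
      have h1 : AlgOver F U (τ i) := algOver (hG0 i) (fun x hx => hF (Or.inl (Set.mem_iUnion.2 ⟨i, hx⟩))) (hG i)
      have h2 := h1.mem (le_refl F) hz htr
      exact clo_le (fun s hs => by rw [Set.mem_singleton_iff.1 hs]; exact mz) h2
    have ml : lam i z ∈ K := by
      have h1 : AlgOver F U (lam i) := algOver (hL0 i) (fun x hx => hF (Or.inr (Set.mem_iUnion.2 ⟨i, hx⟩))) (hL i)
      have h2 := h1.mem (le_refl F) hz htr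
      exact clo_le (fun s hs => by rw [Set.mem_singleton_iff.1 hs]; exact mz) h2
    have m2 : deriv (deriv jf) (τ i z) ∈ K := by
      rw [VV_inv (l := lam i z) (c := deriv (deriv jf) (τ i z)) (h0 i z hz) (h1 i z hz) (hd i z hz)]
      exact add_mem (mul_mem ml m1) (div_mem (mul_mem (pow_mem m1 2) (sub_mem (sub_mem (mul_mem m7 m0) m6912) mV))
        (mul_mem (mul_mem m6 m0) (sub_mem m0 m1728)))
    clear mO hK
    clear_value K
    have key : ∀ m : Fin 4, b4 m (τ i z) ∈ K := by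
      intro m
      fin_cases m
      · exact mt
      · exact m0
      · exact m1
      · exact m2
    exact key m
  · exact i.elim0
  · exact i.elim0

/-- the index set -/
abbrev Ix {n : ℕ} (i₀ : Fin n) : Type := {k : Fin n × Fin 3 // k ≠ (i₀, 2)}

theorem locS (h : Tpl U τ) (i₀ : Fin n) (hl : ∀ i, AnalyticOnNhd ℂ (lam i) U) (hla : ∀ i, Alg U (lam i))
    (hd : ∀ i, ∀ z ∈ U, deriv jf (τ i z) ≠ 0) (h0 : ∀ i, ∀ z ∈ U, jf (τ i z) ≠ 0)
    (h1 : ∀ i, ∀ z ∈ U, jf (τ i z) - 1728 ≠ 0) :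
    ∀ t ∈ U, Pool.Agent.Y124.LocInd (fun k : Ix i₀ => yr τ lam i₀ k.1) t :=
  fun t ht => loc_comp (fun k : Ix i₀ => k.1) Subtype.val_injective (locR h i₀ hl hla hd h0 h1 t ht)

end Pool.Agent.H73.MR
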